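import Mathlib

set_option autoImplicit false

open NumberField NumberField.Units NumberField.Units.dirichletUnitTheorem Height Finset
open scoped Classical

namespace Pool.Agent.H57R3.VJ

variable (K : Type*) [Field K] [NumberField K]

lemma mult_log_le (x : K) (w : InfinitePlace K) : w.mult * Real.log (w x) ≤ logHeight₁ x := by
  rw [NumberField.logHeight₁_eq]
  have h1 : (w.mult : ℝ) * Real.log (w x) ≤ w.mult * Real.posLog (w x) :=
    mul_le_mul_of_nonneg_left (le_max_right _ _) (Nat.cast_nonneg _)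
  have h2 : (w.mult : ℝ) * Real.posLog (w x) ≤ ∑ v : InfinitePlace K, v.mult * Real.posLog (v x) :=
    Finset.single_le_sum (f := fun v : InfinitePlace K => (v.mult : ℝ) * Real.posLog (v x))
      (fun v _ => mul_nonneg (Nat.cast_nonneg _) Real.posLog_nonneg) (Finset.mem_univ w)
  have h3 : 0 ≤ ∑ᶠ v : FinitePlace K, Real.posLog (v x) := finsum_nonneg fun v => Real.posLog_nonneg
  linarith

lemma units_log (ε : (𝓞 K)ˣ) :
    ‖logEmbedding K (Additive.ofMul ε)‖ ≤ logHeight₁ ((ε : 𝓞 K) : K) := by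
  rw [pi_norm_le_iff_of_nonneg (zero_le_logHeight₁ _)]
  intro w
  rw [logEmbedding_component, Real.norm_eq_abs, abs_le]
  constructor
  · have h := mult_log_le K (((ε : 𝓞 K) : K)⁻¹) w.1
    rw [logHeight₁_inv] at h
    rw [map_inv₀, Real.log_inv] at h
    linarith
  · exact mult_log_le K _ w.1

/-- number of units of bounded height -/
theorem units_card_log : ∃ (C : ℝ) (r : ℕ), 0 < C ∧ ∀ L : ℝ, 0 ≤ L → ∀ U : Finset (𝓞 K)ˣ,
    (∀ ε ∈ U, logHeight₁ ((ε : 𝓞 K) : K) ≤ L) → (U.card : ℝ) ≤ C * (1 + L) ^ r := by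
  set b := (basisUnitLattice K).ofZLatticeBasis ℝ (unitLattice K) with hb
  set T : logSpace K →L[ℝ] (Fin (rank K) → ℝ) := LinearMap.toContinuousLinearMap b.equivFun.toLinearMap with hT
  have hTn : 0 ≤ ‖T‖ := norm_nonneg _
  refine ⟨(Nat.card (torsion K) : ℝ) * (2 * ‖T‖ + 1) ^ rank K, rank K, ?_, ?_⟩
  · have : 0 < Nat.card (torsion K) := Nat.card_pos
    positivity
  intro L hL U hU
  let mem : ∀ ε : (𝓞 K)ˣ, logEmbedding K (Additive.ofMul ε) ∈ unitLattice K := fun ε => by
    unfold unitLattice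
    exact ⟨Additive.ofMul ε, by simp⟩
  let F : (𝓞 K)ˣ → (Fin (rank K) → ℤ) := fun ε i => (basisUnitLattice K).repr ⟨_, mem ε⟩ i
  have hcoord : ∀ ε ∈ U, ∀ i, |(F ε i : ℝ)| ≤ ‖T‖ * L := by
    intro ε hε i
    have e1 : (F ε i : ℝ) = T (logEmbedding K (Additive.ofMul ε)) i := by
      have := (basisUnitLattice K).ofZLatticeBasis_repr_apply ℝ (unitLattice K) ⟨_, mem ε⟩ i
      simp only [F]
      rw [← this, hT]
      simp [hb]
    rw [e1]
    calc |T (logEmbedding K (Additive.ofMul ε)) i| ≤ ‖T (logEmbedding K (Additive.ofMul ε))‖ := by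
          rw [← Real.norm_eq_abs]; exact norm_le_pi_norm _ i
      _ ≤ ‖T‖ * ‖logEmbedding K (Additive.ofMul ε)‖ := T.le_opNorm _
      _ ≤ ‖T‖ * L := mul_le_mul_of_nonneg_left ((units_log K ε).trans (hU ε hε)) hTn
  set N : ℕ := ⌊‖T‖ * L⌋₊ with hN
  have hNle : (N : ℝ) ≤ ‖T‖ * L := Nat.floor_le (by positivity)
  have himg : U.image F ⊆ Fintype.piFinset fun _ => Finset.Icc (-(N : ℤ)) N := by
    intro f hf
    rw [mem_image] at hf
    obtain ⟨ε, hε, rfl⟩ := hf
    rw [Fintype.mem_piFinset]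
    intro i
    rw [mem_Icc]
    have h := hcoord ε hε i
    have h2 : |F ε i| ≤ (N : ℤ) := by
      have h3 : ((F ε i).natAbs : ℝ) ≤ ‖T‖ * L := by
        rw [Nat.cast_natAbs]; exact_mod_cast h
      have h4 := Nat.le_floor h3
      rw [Int.abs_eq_natAbs]
      exact_mod_cast h4
    exact abs_le.1 h2
  have hfib : ∀ a ∈ U.image F, (U.filter fun ε => F ε = a).card ≤ Nat.card (torsion K) := by
    intro a ha
    rw [mem_image] at ha
    obtain ⟨ε₀, hε₀, rfl⟩ := ha
    haveI : Fintype (torsion K) := Fintype.ofFinite _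
    rw [Nat.card_eq_fintype_card, ← Finset.card_univ (α := torsion K)]
    have hker : ∀ ε ∈ U.filter (fun ε => F ε = F ε₀), ε * ε₀⁻¹ ∈ torsion K := by
      intro ε hε
      rw [mem_filter] at hε
      have h1 : (⟨_, mem ε⟩ : unitLattice K) = ⟨_, mem ε₀⟩ := by
        apply (basisUnitLattice K).repr.injective
        ext i
        exact congrFun hε.2 i
      have h2 : logEmbedding K (Additive.ofMul ε) = logEmbedding K (Additive.ofMul ε₀) := congrArg Subtype.val h1
      rw [← logEmbedding_eq_zero_iff, ofMul_mul, map_add, ofMul_inv, map_neg, h2, add_neg_cancel]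
    refine Finset.card_le_card_of_injOn (fun ε => if h : ε * ε₀⁻¹ ∈ torsion K then (⟨_, h⟩ : torsion K) else 1)
      (fun _ _ => mem_univ _) ?_
    intro ε hε ε' hε' h
    have h1 := hker ε hε
    have h2 := hker ε' hε'
    simp only [dif_pos h1, dif_pos h2] at h
    have := congrArg Subtype.val h
    exact mul_right_cancel this
  have hcard := Finset.card_le_mul_card_image (f := F) U (Nat.card (torsion K)) hfib
  have h5 : (U.image F).card ≤ (2 * N + 1) ^ rank K := by
    refine (card_le_card himg).trans (le_of_eq ?_)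
    rw [Fintype.card_piFinset_const, Int.card_Icc]
    congr 1
    omega
  calc (U.card : ℝ) ≤ (Nat.card (torsion K) * (U.image F).card : ℕ) := by exact_mod_cast hcard
    _ ≤ Nat.card (torsion K) * ((2 * N + 1) ^ rank K : ℕ) := by
        push_cast
        have : ((U.image F).card : ℝ) ≤ (2 * (N:ℝ) + 1) ^ rank K := by exact_mod_cast h5
        exact mul_le_mul_of_nonneg_left this (Nat.cast_nonneg _)
    _ ≤ Nat.card (torsion K) * ((2 * ‖T‖ + 1) * (1 + L)) ^ rank K := by
        push_cast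
        apply mul_le_mul_of_nonneg_left _ (Nat.cast_nonneg _)
        apply pow_le_pow_left₀ (by positivity)
        nlinarith
    _ = _ := by rw [mul_pow, mul_assoc]

/-- number of units of bounded height, form with a small power -/
theorem units_card {δ : ℝ} (hδ : 0 < δ) : ∃ C : ℝ, 0 < C ∧ ∀ X : ℝ, 1 ≤ X → ∀ U : Finset (𝓞 K)ˣ,
    (∀ ε ∈ U, mulHeight₁ ((ε : 𝓞 K) : K) ≤ X) → (U.card : ℝ) ≤ C * X ^ δ := by
  obtain ⟨C, r, hC, h⟩ := units_card_log K
  -- `(1 + L)^r ≤ C' exp (δ L)`
  obtain ⟨M, hM⟩ : ∃ M : ℝ, ∀ L : ℝ, 0 ≤ L → (1 + L) ^ r ≤ M * Real.exp (δ * L) := by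
    refine ⟨(Real.exp 1 + 1 / δ * 1) ^ r * (r.factorial + 1) * (1 + r.factorial / δ ^ r) * 2 ^ r, ?_⟩
    intro L hL
    have h1 : (δ * L) ^ r / r.factorial ≤ Real.exp (δ * L) := Real.pow_div_factorial_le_exp _ (by positivity) r
    have h2 : 1 ≤ Real.exp (δ * L) := Real.one_le_exp (by positivity)
    have h3 : (1 + L) ^ r ≤ 2 ^ r * (1 + L ^ r) := by
      rcases le_total L 1 with h | h
      · calc (1 + L) ^ r ≤ 2 ^ r := pow_le_pow_left₀ (by positivity) (by linarith) _
          _ ≤ 2 ^ r * (1 + L ^ r) := by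
            have : 0 ≤ L ^ r := by positivity
            nlinarith [pow_pos (two_pos (α := ℝ)) r]
      · calc (1 + L) ^ r ≤ (2 * L) ^ r := pow_le_pow_left₀ (by positivity) (by linarith) _
          _ = 2 ^ r * L ^ r := mul_pow _ _ _
          _ ≤ 2 ^ r * (1 + L ^ r) := by
            nlinarith [pow_pos (two_pos (α := ℝ)) r]
    have h4 : L ^ r ≤ r.factorial / δ ^ r * Real.exp (δ * L) := by
      have hf : (0:ℝ) < r.factorial := by exact_mod_cast Nat.factorial_pos r
      rw [div_le_iff₀ hf, mul_pow] at h1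
      rw [div_mul_eq_mul_div, le_div_iff₀ (by positivity)]
      linarith
    have h5 : 1 + L ^ r ≤ (1 + r.factorial / δ ^ r) * Real.exp (δ * L) := by
      rw [add_mul, one_mul]; linarith
    have h6 : 1 ≤ (Real.exp 1 + 1 / δ * 1) ^ r := one_le_pow₀ (by
      have := Real.one_le_exp (x := 1) (by norm_num)
      have : 0 ≤ 1 / δ * 1 := by positivity
      linarith)
    have h7 : (1:ℝ) ≤ r.factorial + 1 := by
      have : (0:ℝ) ≤ r.factorial := Nat.cast_nonneg _
      linarith
    calc (1 + L) ^ r ≤ 2 ^ r * ((1 + r.factorial / δ ^ r) * Real.exp (δ * L)) :=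
          h3.trans (mul_le_mul_of_nonneg_left h5 (by positivity))
      _ = 1 * 1 * (1 + r.factorial / δ ^ r) * 2 ^ r * Real.exp (δ * L) := by ring
      _ ≤ _ := by
          gcongr
  refine ⟨C * (|M| + 1), by positivity, fun X hX U hU => ?_⟩
  have hL : 0 ≤ Real.log X := Real.log_nonneg hX
  have h1 := h (Real.log X) hL U fun ε hε => by
    unfold logHeight₁
    exact Real.log_le_log (mulHeight₁_pos _) (hU ε hε)
  refine h1.trans ?_
  rw [mul_assoc]
  apply mul_le_mul_of_nonneg_left _ hC.le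
  refine (hM _ hL).trans ?_
  rw [Real.rpow_def_of_pos (by linarith), mul_comm (Real.log X)]
  apply mul_le_mul_of_nonneg_right _ (Real.exp_pos _).le
  linarith [le_abs_self M]

end Pool.Agent.H57R3.VJ
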