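import Mathlib
import Pool.Agent.H57R3.VJ.A

set_option autoImplicit false

open NumberField NumberField.Units Height Finset IsDedekindDomain
open scoped Classical

namespace Pool.Agent.H57R3.VJ

variable {K : Type*} [Field K] [NumberField K]

/-- norm of a finite place -/
noncomputable def NN (v : FinitePlace K) : ℝ := (Ideal.absNorm v.maximalIdeal.asIdeal : ℝ)

lemma two_le_NN (v : FinitePlace K) : 2 ≤ NN v := by
  have h := NumberField.HeightOneSpectrum.one_lt_absNorm v.maximalIdeal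
  unfold NN
  exact_mod_cast h

lemma NN_pos (v : FinitePlace K) : 0 < NN v := by linarith [two_le_NN v]

lemma val_int (v : FinitePlace K) {x : 𝓞 K} (hx : x ≠ 0) : ∃ k : ℤ, v (x : K) = NN v ^ k := by
  have h := v.apply_mul_absNorm_pow_eq_one hx
  refine ⟨-(multiplicity v.maximalIdeal.asIdeal (Ideal.span {x}) : ℤ), ?_⟩
  rw [zpow_neg, zpow_natCast]
  exact eq_inv_of_mul_eq_one_left h

lemma val_zpow (v : FinitePlace K) {u : K} (hu : u ≠ 0) : ∃ k : ℤ, v u = NN v ^ k := by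
  obtain ⟨a, b, hb, rfl⟩ := IsFractionRing.div_surjective (A := 𝓞 K) u
  have hb0 : b ≠ 0 := nonZeroDivisors.ne_zero hb
  have ha0 : a ≠ 0 := by
    rintro rfl
    simp at hu
  obtain ⟨k, hk⟩ := val_int v ha0
  obtain ⟨l, hl⟩ := val_int v hb0
  refine ⟨k - l, ?_⟩
  rw [map_div₀]
  have e1 : v (algebraMap (𝓞 K) K a) = NN v ^ k := hk
  have e2 : v (algebraMap (𝓞 K) K b) = NN v ^ l := hl
  rw [e1, e2, zpow_sub₀ (NN_pos v).ne']

noncomputable def ev (v : FinitePlace K) (u : K) : ℤ := if h : u ≠ 0 then (val_zpow v h).choose else 0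

lemma ev_spec (v : FinitePlace K) {u : K} (hu : u ≠ 0) : v u = NN v ^ ev v u := by
  unfold ev
  rw [dif_pos hu]
  exact (val_zpow v hu).choose_spec

/-- strict inequality of values gains a factor `NN v` -/
lemma gain (v : FinitePlace K) {x y : K} (hx : x ≠ 0) (hy : y ≠ 0) (h : v x < v y) : NN v * v x ≤ v y := by
  rw [ev_spec v hx, ev_spec v hy] at *
  have h1 : ev v x < ev v y := (zpow_lt_zpow_iff_right₀ (by linarith [two_le_NN v])).1 h
  calc NN v * NN v ^ ev v x = NN v ^ (ev v x + 1) := by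
        rw [zpow_add_one₀ (NN_pos v).ne', mul_comm]
    _ ≤ NN v ^ ev v y := zpow_le_zpow_right₀ (by linarith [two_le_NN v]) (by omega)

lemma unit_of_one {u : K} (hu0 : u ≠ 0) (hu : ∀ v : FinitePlace K, v u = 1) : ∃ ε : (𝓞 K)ˣ, ((ε : 𝓞 K) : K) = u := by
  have key : ∀ w : K, (∀ v : FinitePlace K, v w ≤ 1) → ∃ a : 𝓞 K, (a : K) = w := by
    intro w hw
    have h := HeightOneSpectrum.mem_integers_of_valuation_le_one (R := 𝓞 K) K w (fun v => by
      have h1 := hw (FinitePlace.mk v)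
      rw [FinitePlace.mk_apply, NumberField.FinitePlace.norm_embedding'] at h1
      exact (WithZeroMulInt.toNNReal_le_one_iff (NumberField.HeightOneSpectrum.one_lt_absNorm_nnreal v)).1
        (by exact_mod_cast h1))
    obtain ⟨a, ha⟩ := h
    exact ⟨a, ha⟩
  obtain ⟨a, ha⟩ := key u fun v => (hu v).le
  obtain ⟨b, hb⟩ := key u⁻¹ fun v => by rw [map_inv₀, hu v, inv_one]
  have hab : a * b = 1 := by
    apply NumberField.RingOfIntegers.coe_injective
    rw [map_mul, map_one]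
    have e1 : (algebraMap (𝓞 K) K) a = u := ha
    have e2 : (algebraMap (𝓞 K) K) b = u⁻¹ := hb
    rw [e1, e2, mul_inv_cancel₀ hu0]
  exact ⟨⟨a, b, hab, by rw [mul_comm, hab]⟩, ha⟩

lemma finite_NN (T : ℝ) : {v : FinitePlace K | NN v ≤ T}.Finite := by
  have h := Ideal.finite_setOfPred_absNorm_le (S := 𝓞 K) ⌊T⌋₊
  apply Set.Finite.of_finite_image (f := fun v : FinitePlace K => v.maximalIdeal.asIdeal)
  · refine h.subset ?_
    rintro _ ⟨v, hv, rfl⟩
    show Ideal.absNorm v.maximalIdeal.asIdeal ≤ ⌊T⌋₊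
    exact Nat.le_floor hv
  · intro v _ w _ hvw
    apply FinitePlace.maximalIdeal_injective
    exact HeightOneSpectrum.ext hvw

lemma prod_le_fp {α : Type*} (f : α → ℝ) (h1 : ∀ a, 1 ≤ f a) (hf : (Function.mulSupport f).Finite) (Q : Finset α) :
    ∏ a ∈ Q, f a ≤ ∏ᶠ a, f a := by
  rw [finprod_eq_prod_of_mulSupport_subset f (s := hf.toFinset ∪ Q) (by
    intro a ha
    simp only [coe_union, Set.Finite.coe_toFinset, Set.mem_union]
    exact Or.inl ha)]
  rw [← Finset.prod_sdiff (subset_union_right : Q ⊆ hf.toFinset ∪ Q)]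
  have h2 : 1 ≤ ∏ x ∈ (hf.toFinset ∪ Q) \ Q, f x := Finset.one_le_prod fun i _ => h1 i
  have h3 : 0 ≤ ∏ a ∈ Q, f a := Finset.prod_nonneg fun i _ => le_trans zero_le_one (h1 i)
  exact le_mul_of_one_le_left h3 h2

/-- heights bound the finite part -/
lemma prod_le_height {u : K} (hu : u ≠ 0) (Q : Finset (FinitePlace K)) : ∏ v ∈ Q, max (v u) 1 ≤ mulHeight₁ u := by
  rw [NumberField.mulHeight₁_eq]
  have h1 : 1 ≤ ∏ v : InfinitePlace K, max (v u) 1 ^ v.mult :=
    Finset.one_le_prod fun v _ => one_le_pow₀ (le_max_right _ _)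
  have h2 := prod_le_fp (fun v : FinitePlace K => max (v u) 1) (fun v => le_max_right _ _)
    ((FinitePlace.hasFiniteMulSupport hu).subset (by
      intro v hv
      rw [Function.mem_mulSupport] at hv ⊢
      intro h
      apply hv
      simp [h])) Q
  have h3 : 0 ≤ ∏ᶠ v : FinitePlace K, max (v u) 1 :=
    le_trans (Finset.prod_nonneg fun i _ => le_trans zero_le_one (le_max_right _ _)) h2
  exact h2.trans (le_mul_of_one_le_left h3 h1)

lemma prod_ev_le {u : K} (hu : u ≠ 0) (Q : Finset (FinitePlace K)) {X : ℝ} (hX : mulHeight₁ u ≤ X) :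
    ∏ v ∈ Q, NN v ^ (ev v u).natAbs ≤ X ^ 2 := by
  have h1 := (prod_le_height hu Q).trans hX
  have h2 : ∏ v ∈ Q, max (v u⁻¹) 1 ≤ X := by
    have h := prod_le_height (inv_ne_zero hu) Q
    rw [mulHeight₁_inv] at h
    exact h.trans hX
  have h0 : 0 ≤ ∏ v ∈ Q, max (v u⁻¹) 1 := Finset.prod_nonneg fun i _ => le_trans zero_le_one (le_max_right _ _)
  have h00 : 0 ≤ ∏ v ∈ Q, max (v u) 1 := Finset.prod_nonneg fun i _ => le_trans zero_le_one (le_max_right _ _)
  calc ∏ v ∈ Q, NN v ^ (ev v u).natAbs ≤ ∏ v ∈ Q, (max (v u) 1 * max (v u⁻¹) 1) := by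
        apply Finset.prod_le_prod (fun v _ => pow_nonneg (NN_pos v).le _)
        intro v _
        rw [map_inv₀, ev_spec v hu]
        have hN := two_le_NN v
        rcases le_total 0 (ev v u) with h | h
        · have e1 : NN v ^ (ev v u).natAbs = NN v ^ ev v u := by
            rw [← zpow_natCast]; congr 1; omega
          rw [e1]
          have h3 : 1 ≤ NN v ^ ev v u := one_le_zpow₀ (by linarith) h
          calc NN v ^ ev v u = NN v ^ ev v u * 1 := (mul_one _).symm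
            _ ≤ max (NN v ^ ev v u) 1 * max (NN v ^ ev v u)⁻¹ 1 :=
              mul_le_mul (le_max_left _ _) (le_max_right _ _) zero_le_one (by positivity)
        · have e1 : NN v ^ (ev v u).natAbs = (NN v ^ ev v u)⁻¹ := by
            rw [← zpow_natCast, ← zpow_neg]; congr 1; omega
          rw [e1]
          have h3 : 0 ≤ (NN v ^ ev v u)⁻¹ := by positivity
          calc (NN v ^ ev v u)⁻¹ = 1 * (NN v ^ ev v u)⁻¹ := (one_mul _).symm
            _ ≤ max (NN v ^ ev v u) 1 * max (NN v ^ ev v u)⁻¹ 1 :=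
              mul_le_mul (le_max_right _ _) (le_max_left _ _) h3 (by positivity)
    _ = (∏ v ∈ Q, max (v u) 1) * ∏ v ∈ Q, max (v u⁻¹) 1 := Finset.prod_mul_distrib
    _ ≤ X * X := mul_le_mul h1 h2 h0 (h00.trans h1)
    _ = X ^ 2 := by ring

/-- geometric series bound -/
lemma geom_bd {q : ℝ} (h0 : 0 ≤ q) (h1 : q < 1) (M : ℕ) :
    ∑ k ∈ Finset.Icc (-(M : ℤ)) M, q ^ k.natAbs ≤ 2 * (1 - q)⁻¹ := by
  have hg : ∀ m : ℕ, ∑ k ∈ Finset.range m, q ^ k ≤ (1 - q)⁻¹ := fun m => by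
    have := (summable_geometric_of_lt_one h0 h1).sum_le_tsum (Finset.range m) (fun i _ => pow_nonneg h0 i)
    rwa [tsum_geometric_of_lt_one h0 h1] at this
  have hsub : Finset.Icc (-(M : ℤ)) M ⊆ (Finset.range (M + 1)).image (fun k : ℕ => (k : ℤ)) ∪
      (Finset.range (M + 1)).image (fun k : ℕ => -(k : ℤ)) := by
    intro k hk
    rw [mem_Icc] at hk
    rw [mem_union, mem_image, mem_image]
    rcases le_total 0 k with h | h
    · left; exact ⟨k.natAbs, by rw [mem_range]; omega, by omega⟩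
    · right; exact ⟨k.natAbs, by rw [mem_range]; omega, by omega⟩
  calc ∑ k ∈ Finset.Icc (-(M : ℤ)) M, q ^ k.natAbs
      ≤ ∑ k ∈ (Finset.range (M + 1)).image (fun k : ℕ => (k : ℤ)) ∪
          (Finset.range (M + 1)).image (fun k : ℕ => -(k : ℤ)), q ^ k.natAbs :=
        Finset.sum_le_sum_of_subset_of_nonneg hsub fun _ _ _ => pow_nonneg h0 _
    _ ≤ ∑ k ∈ (Finset.range (M + 1)).image (fun k : ℕ => (k : ℤ)), q ^ k.natAbs +
          ∑ k ∈ (Finset.range (M + 1)).image (fun k : ℕ => -(k : ℤ)), q ^ k.natAbs := by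
        rw [← Finset.sum_union_inter]
        have : 0 ≤ ∑ k ∈ (Finset.range (M + 1)).image (fun k : ℕ => (k : ℤ)) ∩
          (Finset.range (M + 1)).image (fun k : ℕ => -(k : ℤ)), q ^ k.natAbs :=
          Finset.sum_nonneg fun _ _ => pow_nonneg h0 _
        linarith
    _ = ∑ k ∈ Finset.range (M + 1), q ^ k + ∑ k ∈ Finset.range (M + 1), q ^ k := by
        rw [Finset.sum_image (fun a _ b _ h => by simpa using h), Finset.sum_image (fun a _ b _ h => by simpa using h)]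
        simp
    _ ≤ (1 - q)⁻¹ + (1 - q)⁻¹ := add_le_add (hg _) (hg _)
    _ = _ := by ring

/-- `∏ 2/(1-N^{-δ}) ≤ C ∏ N^δ` -/
lemma prod_const {δ : ℝ} (hδ : 0 < δ) : ∃ C : ℝ, 1 ≤ C ∧ ∀ Q : Finset (FinitePlace K),
    ∏ v ∈ Q, (2 * (1 - NN v ^ (-δ))⁻¹) ≤ C * ∏ v ∈ Q, NN v ^ δ := by
  set G : ℝ := max 1 (2 * (1 - (2:ℝ) ^ (-δ))⁻¹) with hG
  have hG1 : 1 ≤ G := le_max_left _ _
  set F := (finite_NN (K := K) ((3:ℝ) ^ (1 / δ))).toFinset with hF
  have hlt : ∀ v : FinitePlace K, NN v ^ (-δ) < 1 := fun v =>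
    Real.rpow_lt_one_of_one_lt_of_neg (by linarith [two_le_NN v]) (by linarith)
  have hpos : ∀ v : FinitePlace K, 0 < 2 * (1 - NN v ^ (-δ))⁻¹ := fun v => by
    have := hlt v
    have : 0 < 1 - NN v ^ (-δ) := by linarith
    positivity
  refine ⟨G ^ F.card, one_le_pow₀ hG1, fun Q => ?_⟩
  have key : ∀ v : FinitePlace K, 2 * (1 - NN v ^ (-δ))⁻¹ ≤ (if v ∈ F then G else 1) * NN v ^ δ := by
    intro v
    have h2 := two_le_NN v
    have hNd : 1 ≤ NN v ^ δ := Real.one_le_rpow (by linarith) hδ.le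
    split_ifs with hv
    · have h3 : NN v ^ (-δ) ≤ (2:ℝ) ^ (-δ) := Real.rpow_le_rpow_of_nonpos (by norm_num) h2 (by linarith)
      have h4 : (2:ℝ) ^ (-δ) < 1 := Real.rpow_lt_one_of_one_lt_of_neg (by norm_num) (by linarith)
      have h5 : (1 - NN v ^ (-δ))⁻¹ ≤ (1 - (2:ℝ) ^ (-δ))⁻¹ := inv_anti₀ (by linarith) (by linarith)
      calc 2 * (1 - NN v ^ (-δ))⁻¹ ≤ 2 * (1 - (2:ℝ) ^ (-δ))⁻¹ := by linarith
        _ ≤ G := le_max_right _ _
        _ ≤ G * NN v ^ δ := le_mul_of_one_le_right (by linarith) hNd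
    · rw [one_mul]
      have h3 : (3:ℝ) ^ (1 / δ) < NN v := by
        by_contra h
        apply hv
        rw [hF, Set.Finite.mem_toFinset]
        exact not_lt.1 h
      have h4 : 3 < NN v ^ δ := by
        have := Real.rpow_lt_rpow (by positivity) h3 hδ
        rwa [← Real.rpow_mul (by norm_num), one_div_mul_cancel hδ.ne', Real.rpow_one] at this
      have h5 : NN v ^ (-δ) = (NN v ^ δ)⁻¹ := Real.rpow_neg (NN_pos v).le δ
      rw [h5]
      have h6 : 0 < NN v ^ δ := by linarith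
      have h7 : 0 < 1 - (NN v ^ δ)⁻¹ := by
        have := inv_lt_one_of_one_lt₀ (a := NN v ^ δ) (by linarith)
        linarith
      rw [← div_eq_mul_inv, div_le_iff₀ h7]
      have : NN v ^ δ * (1 - (NN v ^ δ)⁻¹) = NN v ^ δ - 1 := by
        rw [mul_sub, mul_inv_cancel₀ h6.ne', mul_one]
      linarith
  calc ∏ v ∈ Q, (2 * (1 - NN v ^ (-δ))⁻¹) ≤ ∏ v ∈ Q, ((if v ∈ F then G else 1) * NN v ^ δ) :=
        Finset.prod_le_prod (fun v _ => (hpos v).le) fun v _ => key v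
    _ = (∏ v ∈ Q, (if v ∈ F then G else 1)) * ∏ v ∈ Q, NN v ^ δ := Finset.prod_mul_distrib
    _ ≤ G ^ F.card * ∏ v ∈ Q, NN v ^ δ := by
        apply mul_le_mul_of_nonneg_right _ (Finset.prod_nonneg fun v _ => Real.rpow_nonneg (NN_pos v).le _)
        rw [Finset.prod_ite, Finset.prod_const, Finset.prod_const_one, mul_one]
        apply pow_le_pow_right₀ hG1
        apply Finset.card_le_card
        intro v hv
        exact (mem_filter.1 hv).2

/-- **Number of elements of bounded height with prescribed support.** -/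
theorem supp_card {δ : ℝ} (hδ : 0 < δ) : ∃ C : ℝ, 0 < C ∧ ∀ X : ℝ, 1 ≤ X → ∀ Q : Finset (FinitePlace K),
    ∀ U : Finset K, (∀ u ∈ U, u ≠ 0 ∧ mulHeight₁ u ≤ X ∧ ∀ v : FinitePlace K, v ∉ Q → v u = 1) →
      (U.card : ℝ) ≤ C * X ^ δ * (∏ v ∈ Q, NN v) ^ δ := by
  have hδ4 : 0 < δ / 4 := by positivity
  obtain ⟨C1, hC1, h1⟩ := units_card K hδ4
  obtain ⟨C2, hC2, h2⟩ := prod_const (K := K) hδ4
  refine ⟨C1 * C2, by positivity, fun X hX Q U hU => ?_⟩
  have hX2 : 1 ≤ X ^ 2 := one_le_pow₀ hX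
  let f : K → (Q → ℤ) := fun u v => ev v.1 u
  set M : ℕ := U.sup fun u => Q.sup fun v => (ev v u).natAbs with hM
  have hfib : ∀ e ∈ U.image f, (U.filter fun u => f u = e).card ≤ ⌊C1 * (X ^ 2) ^ (δ / 4)⌋₊ := by
    intro e he
    rw [mem_image] at he
    obtain ⟨u0, hu0, rfl⟩ := he
    obtain ⟨hu00, hu0X, hu0Q⟩ := hU u0 hu0
    have hex : ∀ u ∈ U.filter (fun u => f u = f u0), ∃ ε : (𝓞 K)ˣ, ((ε : 𝓞 K) : K) = u * u0⁻¹ := by
      intro u hu
      rw [mem_filter] at hu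
      obtain ⟨hu1, hu2⟩ := hu
      obtain ⟨hun, huX, huQ⟩ := hU u hu1
      apply unit_of_one (mul_ne_zero hun (inv_ne_zero hu00))
      intro v
      rw [map_mul, map_inv₀]
      have hv0 : v u0 ≠ 0 := by
        have := (FinitePlace.pos_iff (w := v) (x := u0)).2 hu00
        exact this.ne'
      by_cases hv : v ∈ Q
      · have : ev v u = ev v u0 := congrFun hu2 ⟨v, hv⟩
        rw [ev_spec v hun, ev_spec v hu00, this, mul_inv_cancel₀]
        exact zpow_ne_zero _ (NN_pos v).ne'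
      · rw [huQ v hv, hu0Q v hv]; norm_num
    let g : K → (𝓞 K)ˣ := fun u => if h : ∃ ε : (𝓞 K)ˣ, ((ε : 𝓞 K) : K) = u * u0⁻¹ then h.choose else 1
    have hg : ∀ u ∈ U.filter (fun u => f u = f u0), ((g u : 𝓞 K) : K) = u * u0⁻¹ := by
      intro u hu
      have h := hex u hu
      show (((if h : ∃ ε : (𝓞 K)ˣ, ((ε : 𝓞 K) : K) = u * u0⁻¹ then h.choose else 1 : (𝓞 K)ˣ) : 𝓞 K) : K) = _
      rw [dif_pos h]
      exact h.choose_spec
    have hinj : Set.InjOn g (U.filter fun u => f u = f u0 : Finset K) := by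
      intro u hu u' hu' h
      have a1 := hg u hu
      have a2 := hg u' hu'
      rw [h] at a1
      rw [a1] at a2
      exact mul_right_cancel₀ (inv_ne_zero hu00) a2
    rw [← Finset.card_image_of_injOn hinj]
    apply Nat.le_floor
    refine h1 (X ^ 2) hX2 _ ?_
    intro ε hε
    rw [mem_image] at hε
    obtain ⟨u, hu, rfl⟩ := hε
    rw [hg u hu]
    have hu1 := hU u (mem_filter.1 hu).1
    calc mulHeight₁ (u * u0⁻¹) ≤ mulHeight₁ u * mulHeight₁ u0⁻¹ := mulHeight₁_mul_le _ _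
      _ ≤ X * X := by
          rw [mulHeight₁_inv]
          exact mul_le_mul hu1.2.1 hu0X (mulHeight₁_pos _).le (by linarith)
      _ = X ^ 2 := by ring
  have hcard := Finset.card_le_mul_card_image (f := f) U _ hfib
  have himg : U.image f ⊆ Fintype.piFinset fun _ => Finset.Icc (-(M : ℤ)) M := by
    intro e he
    rw [mem_image] at he
    obtain ⟨u, hu, rfl⟩ := he
    rw [Fintype.mem_piFinset]
    intro v
    rw [mem_Icc]
    have a1 : (ev v.1 u).natAbs ≤ M :=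
      (Finset.le_sup (f := fun v => (ev v u).natAbs) v.2).trans
        (Finset.le_sup (f := fun u => Q.sup fun v => (ev v u).natAbs) hu)
    have : f u v = ev v.1 u := rfl
    rw [this]
    omega
  have hE : ((U.image f).card : ℝ) ≤ (X ^ 2) ^ (δ / 4) * (C2 * ∏ v ∈ Q, NN v ^ (δ / 4)) := by
    have hone : ∀ e ∈ U.image f, (1:ℝ) ≤ (X ^ 2) ^ (δ / 4) * ∏ v : Q, (NN v.1 ^ (-(δ / 4))) ^ (e v).natAbs := by
      intro e he
      rw [mem_image] at he
      obtain ⟨u, hu, rfl⟩ := he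
      obtain ⟨hun, huX, -⟩ := hU u hu
      have a1 := prod_ev_le hun Q huX
      have a2 : ∏ v : Q, (NN v.1 ^ (-(δ / 4))) ^ (f u v).natAbs = ((∏ v ∈ Q, NN v ^ (ev v u).natAbs) ^ (δ / 4))⁻¹ := by
        rw [← Finset.prod_coe_sort Q, ← Real.finset_prod_rpow _ _ (fun v _ => pow_nonneg (NN_pos v.1).le _),
          ← Finset.prod_inv_distrib]
        apply Finset.prod_congr rfl
        intro v _
        have : f u v = ev v.1 u := rfl
        rw [this, ← Real.rpow_natCast, ← Real.rpow_mul (NN_pos v.1).le, ← Real.rpow_natCast (NN v.1),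
          ← Real.rpow_mul (NN_pos v.1).le, ← Real.rpow_neg (NN_pos v.1).le]
        congr 1
        ring
      rw [a2, ← div_eq_mul_inv, one_le_div (by
        apply Real.rpow_pos_of_pos
        exact Finset.prod_pos fun v _ => pow_pos (NN_pos v) _)]
      exact Real.rpow_le_rpow (Finset.prod_nonneg fun v _ => pow_nonneg (NN_pos v).le _) a1 hδ4.le
    have hq : ∀ v : Q, 0 ≤ NN v.1 ^ (-(δ / 4)) ∧ NN v.1 ^ (-(δ / 4)) < 1 := fun v =>
      ⟨Real.rpow_nonneg (NN_pos v.1).le _,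
        Real.rpow_lt_one_of_one_lt_of_neg (by linarith [two_le_NN v.1]) (by linarith)⟩
    have hXp : 0 ≤ (X ^ 2) ^ (δ / 4) := by positivity
    calc ((U.image f).card : ℝ) = ∑ e ∈ U.image f, (1:ℝ) := by simp
      _ ≤ ∑ e ∈ U.image f, (X ^ 2) ^ (δ / 4) * ∏ v : Q, (NN v.1 ^ (-(δ / 4))) ^ (e v).natAbs :=
          Finset.sum_le_sum hone
      _ ≤ ∑ e ∈ Fintype.piFinset (fun _ : Q => Finset.Icc (-(M : ℤ)) M),
            (X ^ 2) ^ (δ / 4) * ∏ v : Q, (NN v.1 ^ (-(δ / 4))) ^ (e v).natAbs :=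
          Finset.sum_le_sum_of_subset_of_nonneg himg fun e _ _ =>
            mul_nonneg hXp (Finset.prod_nonneg fun v _ => pow_nonneg (hq v).1 _)
      _ = (X ^ 2) ^ (δ / 4) * ∏ v : Q, ∑ k ∈ Finset.Icc (-(M : ℤ)) M, (NN v.1 ^ (-(δ / 4))) ^ k.natAbs := by
          rw [← Finset.mul_sum, Finset.prod_univ_sum]
      _ ≤ (X ^ 2) ^ (δ / 4) * ∏ v : Q, (2 * (1 - NN v.1 ^ (-(δ / 4)))⁻¹) := by
          apply mul_le_mul_of_nonneg_left _ hXp
          apply Finset.prod_le_prod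
          · intro v _
            exact Finset.sum_nonneg fun k _ => pow_nonneg (hq v).1 _
          · intro v _
            exact geom_bd (hq v).1 (hq v).2 M
      _ = (X ^ 2) ^ (δ / 4) * ∏ v ∈ Q, (2 * (1 - NN v ^ (-(δ / 4)))⁻¹) := by
          rw [← Finset.prod_coe_sort Q]
      _ ≤ _ := mul_le_mul_of_nonneg_left (h2 Q) hXp
  have hXp : 0 ≤ (X ^ 2) ^ (δ / 4) := by positivity
  have hP1 : 1 ≤ ∏ v ∈ Q, NN v := Finset.one_le_prod fun v _ => by linarith [two_le_NN v]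
  calc (U.card : ℝ) ≤ (⌊C1 * (X ^ 2) ^ (δ / 4)⌋₊ : ℝ) * (U.image f).card := by exact_mod_cast hcard
    _ ≤ (C1 * (X ^ 2) ^ (δ / 4)) * ((X ^ 2) ^ (δ / 4) * (C2 * ∏ v ∈ Q, NN v ^ (δ / 4))) :=
        mul_le_mul (Nat.floor_le (by positivity)) hE (Nat.cast_nonneg _) (by positivity)
    _ = C1 * C2 * ((X ^ 2) ^ (δ / 4) * (X ^ 2) ^ (δ / 4)) * (∏ v ∈ Q, NN v) ^ (δ / 4) := by
        rw [Real.finset_prod_rpow _ _ (fun v _ => (NN_pos v).le)]; ring
    _ = C1 * C2 * X ^ δ * (∏ v ∈ Q, NN v) ^ (δ / 4) := by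
        congr 2
        rw [← Real.rpow_add (by positivity), ← Real.rpow_natCast, ← Real.rpow_mul (by linarith)]
        congr 1
        push_cast; ring
    _ ≤ C1 * C2 * X ^ δ * (∏ v ∈ Q, NN v) ^ δ := by
        apply mul_le_mul_of_nonneg_left _ (by positivity)
        exact Real.rpow_le_rpow_of_exponent_le hP1 (by linarith)

end Pool.Agent.H57R3.VJ
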