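import Mathlib
import Pool.Agent.H57R3.VJ.B

set_option autoImplicit false

open NumberField Height Finset IsDedekindDomain Filter
open scoped Classical

namespace Pool.Agent.H57R3.VJ

variable {K : Type*} [Field K] [NumberField K]

lemma ideal_finite (s : ℝ) : {I : Ideal (𝓞 K) | (Ideal.absNorm I : ℝ) ≤ s}.Finite := by
  refine (Ideal.finite_setOfPred_absNorm_le (S := 𝓞 K) ⌊s⌋₊).subset ?_
  intro I hI
  exact Nat.le_floor hI

variable (K) in
lemma ideals_card : ∃ C : ℝ, 0 < C ∧ ∀ Y : ℝ, 1 ≤ Y →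
    (Nat.card {I : Ideal (𝓞 K) // (Ideal.absNorm I : ℝ) ≤ Y} : ℝ) ≤ C * Y := by
  have h := NumberField.Ideal.tendsto_norm_le_div_atTop K
  set c := ((2 ^ InfinitePlace.nrRealPlaces K * (2 * Real.pi) ^ InfinitePlace.nrComplexPlaces K *
    Units.regulator K * classNumber K) / (Units.torsionOrder K * Real.sqrt |discr K|) : ℝ) with hc
  have h2 : ∀ᶠ s : ℝ in atTop, (Nat.card {I : Ideal (𝓞 K) // (Ideal.absNorm I : ℝ) ≤ s} : ℝ) / s ≤ |c| + 1 := by
    filter_upwards [h.eventually_lt_const (show c < |c| + 1 by linarith [le_abs_self c])] with s hs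
    exact hs.le
  obtain ⟨s0, hs0⟩ := eventually_atTop.1 h2
  set t := max s0 1 with ht
  refine ⟨(|c| + 1) * t, by positivity, fun Y hY => ?_⟩
  have ht1 : 1 ≤ t := le_max_right _ _
  have hc1 : 0 < |c| + 1 := by positivity
  rcases le_total t Y with hYt | hYt
  · have h3 := hs0 Y ((le_max_left _ _).trans hYt)
    rw [div_le_iff₀ (by linarith)] at h3
    refine h3.trans ?_
    have : (|c| + 1) * 1 ≤ (|c| + 1) * t := mul_le_mul_of_nonneg_left ht1 hc1.le
    nlinarith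
  · have h3 := hs0 t (le_max_left _ _)
    rw [div_le_iff₀ (by linarith)] at h3
    have h4 : Nat.card {I : Ideal (𝓞 K) // (Ideal.absNorm I : ℝ) ≤ Y} ≤
        Nat.card {I : Ideal (𝓞 K) // (Ideal.absNorm I : ℝ) ≤ t} := by
      haveI : Finite {I : Ideal (𝓞 K) // (Ideal.absNorm I : ℝ) ≤ t} := ideal_finite t
      exact Nat.card_le_card_of_injective (fun I => ⟨I.1, I.2.trans hYt⟩) (fun I J h => Subtype.ext (by
        simpa using h))
    calc (Nat.card {I : Ideal (𝓞 K) // (Ideal.absNorm I : ℝ) ≤ Y} : ℝ) ≤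
        Nat.card {I : Ideal (𝓞 K) // (Ideal.absNorm I : ℝ) ≤ t} := by exact_mod_cast h4
      _ ≤ (|c| + 1) * t := h3
      _ ≤ (|c| + 1) * t * Y := le_mul_of_one_le_right (by positivity) hY

lemma prod_inj : Function.Injective fun Q : Finset (FinitePlace K) => ∏ v ∈ Q, v.maximalIdeal.asIdeal := by
  have key : ∀ Q : Finset (FinitePlace K), ∀ w : FinitePlace K,
      w ∈ Q ↔ w.maximalIdeal.asIdeal ∣ ∏ v ∈ Q, v.maximalIdeal.asIdeal := by
    intro Q w
    constructor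
    · exact fun h => Finset.dvd_prod_of_mem _ h
    · intro h
      have hp : Prime w.maximalIdeal.asIdeal := w.maximalIdeal.prime
      obtain ⟨v, hv, hd⟩ := hp.exists_mem_finset_dvd h
      have h1 : v.maximalIdeal.asIdeal ≤ w.maximalIdeal.asIdeal := Ideal.dvd_iff_le.1 hd
      have h2 : v.maximalIdeal.asIdeal = w.maximalIdeal.asIdeal :=
        v.maximalIdeal.isMaximal.eq_of_le w.maximalIdeal.isPrime.ne_top h1
      have h3 : v = w := FinitePlace.maximalIdeal_injective (HeightOneSpectrum.ext h2)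
      exact h3 ▸ hv
  intro Q Q' h
  ext w
  rw [key Q, key Q']
  show _ ∣ (fun Q : Finset (FinitePlace K) => ∏ v ∈ Q, v.maximalIdeal.asIdeal) Q ↔
    _ ∣ (fun Q : Finset (FinitePlace K) => ∏ v ∈ Q, v.maximalIdeal.asIdeal) Q'
  rw [h]

variable (K) in
/-- number of finite sets of places of bounded norm -/
theorem sets_card : ∃ C : ℝ, 0 < C ∧ ∀ Y : ℝ, 1 ≤ Y → ∀ 𝒬 : Finset (Finset (FinitePlace K)),
    (∀ Q ∈ 𝒬, ∏ v ∈ Q, NN v ≤ Y) → (𝒬.card : ℝ) ≤ C * Y := by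
  obtain ⟨C, hC, h⟩ := ideals_card K
  refine ⟨C, hC, fun Y hY 𝒬 h𝒬 => le_trans ?_ (h Y hY)⟩
  haveI : Finite {I : Ideal (𝓞 K) // (Ideal.absNorm I : ℝ) ≤ Y} := ideal_finite Y
  haveI := Fintype.ofFinite {I : Ideal (𝓞 K) // (Ideal.absNorm I : ℝ) ≤ Y}
  rw [Nat.card_eq_fintype_card, ← Finset.card_univ]
  have hn : ∀ Q ∈ 𝒬, (Ideal.absNorm (∏ v ∈ Q, v.maximalIdeal.asIdeal) : ℝ) ≤ Y := by
    intro Q hQ
    rw [map_prod, Nat.cast_prod]
    exact h𝒬 Q hQ
  have hne : (0:ℝ) ≤ Y := by linarith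
  have : 𝒬.card ≤ (Finset.univ : Finset {I : Ideal (𝓞 K) // (Ideal.absNorm I : ℝ) ≤ Y}).card := by
    refine Finset.card_le_card_of_injOn (fun Q => if hQ : (Ideal.absNorm (∏ v ∈ Q, v.maximalIdeal.asIdeal) : ℝ) ≤ Y
      then ⟨_, hQ⟩ else ⟨⊥, by simpa using hne⟩) (fun _ _ => mem_univ _) ?_
    intro Q hQ Q' hQ' hh
    simp only [dif_pos (hn Q hQ), dif_pos (hn Q' hQ'), Subtype.mk.injEq] at hh
    exact prod_inj hh
  exact_mod_cast this

end Pool.Agent.H57R3.VJ
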