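import Mathlib
import Pool.Agent.H57R3.VJ.C

set_option autoImplicit false

open NumberField Height Finset IsDedekindDomain Filter
open scoped Classical

namespace Pool.Agent.H57R3.VJ

variable {K : Type*} [Field K] [NumberField K]

/-- the value of a linear form -/
def lin {n : ℕ} (b x : Fin (n + 1) → K) : K := ∑ j, b j * x j

/-- sup of the absolute values of the coordinates -/
noncomputable def sv {n : ℕ} (v : FinitePlace K) (x : Fin (n + 1) → K) : ℝ := ⨆ j, v (x j)

/-- the local height of the hyperplane `b = 0` is positive at `v` -/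
def Meets {n : ℕ} (b x : Fin (n + 1) → K) (v : FinitePlace K) : Prop := v (lin b x) < sv v b * sv v x

variable {n : ℕ}

lemma le_sv (v : FinitePlace K) (x : Fin (n + 1) → K) (j : Fin (n + 1)) : v (x j) ≤ sv v x :=
  Finite.le_ciSup_of_le j le_rfl

lemma sv_att (v : FinitePlace K) (x : Fin (n + 1) → K) : ∃ j, sv v x = v (x j) := by
  obtain ⟨j, hj⟩ := exists_eq_ciSup_of_finite (f := fun j => v (x j))
  exact ⟨j, hj.symm⟩

lemma sv_nonneg (v : FinitePlace K) (x : Fin (n + 1) → K) : 0 ≤ sv v x := by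
  obtain ⟨j, hj⟩ := sv_att v x
  rw [hj]; exact apply_nonneg _ _

lemma sv_pos (v : FinitePlace K) {x : Fin (n + 1) → K} (hx : x ≠ 0) : 0 < sv v x := by
  obtain ⟨j, hj⟩ := Function.ne_iff.1 hx
  exact lt_of_lt_of_le (FinitePlace.pos_iff.2 hj) (le_sv v x j)

lemma sum_le_v (v : FinitePlace K) (s : Finset (Fin (n + 1))) (y : Fin (n + 1) → K) {C : ℝ} (hC : 0 ≤ C)
    (h : ∀ j, v (y j) ≤ C) : v (∑ j ∈ s, y j) ≤ C := by
  induction s using Finset.induction with
  | empty => simpa using hC
  | insert a s ha ih =>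
    rw [Finset.sum_insert ha]
    exact (FinitePlace.add_le v _ _).trans (max_le (h a) ih)

lemma lin_le (v : FinitePlace K) (b x : Fin (n + 1) → K) : v (lin b x) ≤ sv v b * sv v x := by
  unfold lin
  apply sum_le_v v _ _ (mul_nonneg (sv_nonneg _ _) (sv_nonneg _ _))
  intro j
  rw [map_mul]
  exact mul_le_mul (le_sv v b j) (le_sv v x j) (apply_nonneg _ _) (sv_nonneg _ _)

lemma gain_lin (v : FinitePlace K) {b x : Fin (n + 1) → K} (hl : lin b x ≠ 0) (h : Meets b x v) :
    NN v * v (lin b x) ≤ sv v b * sv v x := by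
  obtain ⟨j, hj⟩ := sv_att v b
  obtain ⟨k, hk⟩ := sv_att v x
  unfold Meets at h
  rw [hj, hk, ← map_mul] at h ⊢
  apply gain v hl _ h
  intro h0
  rw [h0, map_zero] at h
  exact absurd h (not_lt.2 (apply_nonneg _ _))

lemma sv_fin {x : Fin (n + 1) → K} (hx : x ≠ 0) : (fun v : FinitePlace K => sv v x).HasFiniteMulSupport := by
  have h1 : (⋃ j ∈ {j : Fin (n + 1) | x j ≠ 0}, Function.mulSupport fun v : FinitePlace K => v (x j)).Finite := by
    apply Set.Finite.biUnion (Set.toFinite _)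
    intro j hj
    exact FinitePlace.hasFiniteMulSupport hj
  refine h1.subset ?_
  intro v hv
  rw [Function.mem_mulSupport] at hv
  by_contra hne
  apply hv
  simp only [Set.mem_iUnion, not_exists, Function.mem_mulSupport, not_not] at hne
  obtain ⟨k, hk⟩ := sv_att v x
  have hk0 : x k ≠ 0 := by
    intro h0
    have := sv_pos v hx
    rw [hk, h0, map_zero] at this
    exact lt_irrefl _ this
  rw [hk]
  exact hne k hk0

/-- first main theorem for a hyperplane, truncated form -/
lemma fmt {b x : Fin (n + 1) → K} (hb : b ≠ 0) (hx : x ≠ 0) (hl : lin b x ≠ 0) (Q : Finset (FinitePlace K))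
    (hQ : ∀ v ∈ Q, Meets b x v) :
    ∏ v ∈ Q, NN v ≤ ((n + 1 : ℕ) : ℝ) ^ (Module.finrank ℚ K) * mulHeight b * mulHeight x := by
  set f : FinitePlace K → ℝ := fun v => sv v b * sv v x * (v (lin b x))⁻¹ with hf
  have hvl : ∀ v : FinitePlace K, 0 < v (lin b x) := fun v => FinitePlace.pos_iff.2 hl
  have hf1 : ∀ v, 1 ≤ f v := by
    intro v
    simp only [hf]
    rw [← div_eq_mul_inv, one_le_div (hvl v)]
    exact lin_le v b x
  have hfin : f.HasFiniteMulSupport := by
    have h1 := sv_fin hb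
    have h2 := sv_fin hx
    have h3 : (fun v : FinitePlace K => v (lin b x)).HasFiniteMulSupport := FinitePlace.hasFiniteMulSupport hl
    exact (h1.mul h2).mul h3.inv
  have h1 : ∏ v ∈ Q, NN v ≤ ∏ v ∈ Q, f v := by
    apply Finset.prod_le_prod (fun v _ => (NN_pos v).le)
    intro v hv
    simp only [hf]
    rw [← div_eq_mul_inv, le_div_iff₀ (hvl v)]
    exact gain_lin v hl (hQ v hv)
  have h2 := prod_le_fp f hf1 hfin Q
  refine (h1.trans h2).trans ?_
  have e1 : ∏ᶠ v, f v = (∏ᶠ v : FinitePlace K, sv v b) * (∏ᶠ v : FinitePlace K, sv v x) *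
      (∏ᶠ v : FinitePlace K, v (lin b x))⁻¹ := by
    have h12 : (fun v : FinitePlace K => sv v b * sv v x).HasFiniteMulSupport := (sv_fin hb).mul (sv_fin hx)
    have h3 : (fun v : FinitePlace K => (v (lin b x))⁻¹).HasFiniteMulSupport :=
      (FinitePlace.hasFiniteMulSupport hl).inv
    simp only [hf]
    rw [finprod_mul_distrib h12 h3, finprod_mul_distrib (sv_fin hb) (sv_fin hx), finprod_inv_distrib]
  have e2 : (∏ᶠ v : FinitePlace K, v (lin b x))⁻¹ = ∏ w : InfinitePlace K, w (lin b x) ^ w.mult := by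
    have := NumberField.prod_abs_eq_one hl
    exact (eq_inv_of_mul_eq_one_left this).symm
  rw [e1, e2, NumberField.mulHeight_eq hb, NumberField.mulHeight_eq hx]
  have hb0 : 0 ≤ ∏ᶠ v : FinitePlace K, sv v b := finprod_nonneg fun v => sv_nonneg v b
  have hx0 : 0 ≤ ∏ᶠ v : FinitePlace K, sv v x := finprod_nonneg fun v => sv_nonneg v x
  have e3 : ∏ w : InfinitePlace K, w (lin b x) ^ w.mult ≤
      ((n + 1 : ℕ) : ℝ) ^ (Module.finrank ℚ K) * (∏ w : InfinitePlace K, (⨆ i, w (b i)) ^ w.mult) *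
        ∏ w : InfinitePlace K, (⨆ i, w (x i)) ^ w.mult := by
    rw [← InfinitePlace.sum_mult_eq, ← Finset.prod_pow_eq_pow_sum, ← Finset.prod_mul_distrib,
      ← Finset.prod_mul_distrib]
    apply Finset.prod_le_prod
    · intro w _; exact pow_nonneg (apply_nonneg _ _) _
    intro w _
    rw [← mul_pow, ← mul_pow]
    apply pow_le_pow_left₀ (apply_nonneg _ _)
    unfold lin
    have hsum : w (∑ j, b j * x j) ≤ ∑ j, w (b j * x j) := by
      have := w.1.sum_le Finset.univ (fun j => b j * x j)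
      exact this
    refine hsum.trans ?_
    calc ∑ j, w (b j * x j) ≤ ∑ j : Fin (n + 1), (⨆ i, w (b i)) * ⨆ i, w (x i) := by
          apply Finset.sum_le_sum
          intro j _
          rw [map_mul]
          have g1 : w (b j) ≤ ⨆ i, w (b i) := Finite.le_ciSup_of_le j le_rfl
          have g2 : w (x j) ≤ ⨆ i, w (x i) := Finite.le_ciSup_of_le j le_rfl
          exact mul_le_mul g1 g2 (apply_nonneg _ _) (le_trans (apply_nonneg _ _) g1)
      _ = _ := by
          rw [Finset.sum_const, Finset.card_univ, Fintype.card_fin, nsmul_eq_mul, mul_assoc]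
  calc (∏ᶠ v : FinitePlace K, sv v b) * (∏ᶠ v : FinitePlace K, sv v x) * ∏ w : InfinitePlace K, w (lin b x) ^ w.mult
      ≤ (∏ᶠ v : FinitePlace K, sv v b) * (∏ᶠ v : FinitePlace K, sv v x) *
        (((n + 1 : ℕ) : ℝ) ^ (Module.finrank ℚ K) * (∏ w : InfinitePlace K, (⨆ i, w (b i)) ^ w.mult) *
        ∏ w : InfinitePlace K, (⨆ i, w (x i)) ^ w.mult) :=
        mul_le_mul_of_nonneg_left e3 (mul_nonneg hb0 hx0)
    _ = _ := by
        unfold sv
        ring

end Pool.Agent.H57R3.VJ
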