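import Mathlib
import Pool.Agent.H57R3.VJ.D

set_option autoImplicit false

open NumberField Height Finset IsDedekindDomain Filter
open scoped Classical

namespace Pool.Agent.H57R3.VJ

variable {K : Type*} [Field K] [NumberField K] {n r : ℕ}

/-- any `n + 1` of the linear forms are linearly independent -/
def GenPos (a : Fin r → Fin (n + 1) → K) : Prop :=
  ∀ I : Finset (Fin r), I.card = n + 1 → LinearIndependent K (fun i : I => a i)

lemma inv_coeff {a : Fin r → Fin (n + 1) → K} {I : Finset (Fin r)} (hI : I.card = n + 1)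
    (hl : LinearIndependent K (fun i : I => a i)) :
    ∃ c : Fin (n + 1) → I → K, ∀ x : Fin (n + 1) → K, ∀ j, x j = ∑ i : I, c j i * lin (a i) x := by
  have hspan : Submodule.span K (Set.range fun i : I => a i) = ⊤ := by
    apply hl.span_eq_top_of_card_eq_finrank'
    rw [Fintype.card_coe, hI, Module.finrank_fin_fun]
  have h : ∀ j : Fin (n + 1), ∃ c : I → K, ∑ i : I, c i • a i = Pi.single j (1 : K) := by
    intro j
    have hm : (Pi.single j (1 : K) : Fin (n + 1) → K) ∈ Submodule.span K (Set.range fun i : I => a i) := by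
      rw [hspan]; exact Submodule.mem_top
    exact (Submodule.mem_span_range_iff_exists_fun K).1 hm
  choose c hc using h
  refine ⟨c, fun x j => ?_⟩
  unfold lin
  calc x j = ∑ k, (Pi.single j (1 : K) : Fin (n + 1) → K) k * x k := by
        simp [Pi.single_apply]
    _ = ∑ k, (∑ i : I, c j i • a i) k * x k := by rw [hc j]
    _ = _ := by
        simp only [Finset.sum_apply, Pi.smul_apply, smul_eq_mul, Finset.sum_mul, Finset.mul_sum]
        rw [Finset.sum_comm]
        simp only [mul_assoc]

lemma sum_lt_v (v : FinitePlace K) {ι : Type*} (s : Finset ι) (y : ι → K) {C : ℝ} (hC : 0 < C)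
    (h : ∀ j ∈ s, v (y j) < C) : v (∑ j ∈ s, y j) < C := by
  induction s using Finset.induction with
  | empty => simpa using hC
  | insert a s ha ih =>
    rw [Finset.sum_insert ha]
    exact (FinitePlace.add_le v _ _).trans_lt
      (max_lt (h a (mem_insert_self _ _)) (ih fun j hj => h j (mem_insert_of_mem hj)))

lemma gt_one_fin (c : K) : {v : FinitePlace K | 1 < v c}.Finite := by
  by_cases hc : c = 0
  · convert Set.finite_empty
    ext v
    simp [hc]
  · refine (FinitePlace.hasFiniteMulSupport hc).subset ?_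
    intro v hv
    rw [Function.mem_mulSupport]
    exact ne_of_gt hv

lemma bad_exists {a : Fin r → Fin (n + 1) → K} (ha : GenPos a) (ha0 : ∀ i, a i ≠ 0) (S : Finset (FinitePlace K)) :
    ∃ S0 : Finset (FinitePlace K), S ⊆ S0 ∧ (∀ v ∉ S0, ∀ i, sv v (a i) = 1) ∧
      ∀ v ∉ S0, ∀ x : Fin (n + 1) → K, x ≠ 0 → (univ.filter fun i => Meets (a i) x v).card ≤ n := by
  have h1 : ∀ i, {v : FinitePlace K | sv v (a i) ≠ 1}.Finite := fun i => sv_fin (ha0 i)
  have h2 : ∀ I : {I : Finset (Fin r) // I.card = n + 1}, ∃ c : Fin (n + 1) → I.1 → K,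
      ∀ x : Fin (n + 1) → K, ∀ j, x j = ∑ i : I.1, c j i * lin (a i) x := fun I =>
    inv_coeff I.2 (ha I.1 I.2)
  choose c hc using h2
  have h3 : (⋃ i, {v : FinitePlace K | sv v (a i) ≠ 1}).Finite := Set.finite_iUnion h1
  have h4 : (⋃ I : {I : Finset (Fin r) // I.card = n + 1}, ⋃ j : Fin (n + 1), ⋃ i : I.1,
      {v : FinitePlace K | 1 < v (c I j i)}).Finite :=
    Set.finite_iUnion fun I => Set.finite_iUnion fun j => Set.finite_iUnion fun i => gt_one_fin _
  refine ⟨S ∪ h3.toFinset ∪ h4.toFinset, ?_, ?_, ?_⟩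
  · exact subset_union_left.trans subset_union_left
  · intro v hv i
    by_contra hne
    apply hv
    simp only [mem_union, Set.Finite.mem_toFinset, Set.mem_iUnion]
    exact Or.inl (Or.inr ⟨i, hne⟩)
  · intro v hv x hx
    by_contra hcard
    push Not at hcard
    obtain ⟨I, hIs, hI⟩ := Finset.exists_subset_card_eq (Nat.succ_le_of_lt hcard)
    have hs1 : ∀ i, sv v (a i) = 1 := by
      intro i
      by_contra hne
      apply hv
      simp only [mem_union, Set.Finite.mem_toFinset, Set.mem_iUnion]
      exact Or.inl (Or.inr ⟨i, hne⟩)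
    have hc1 : ∀ j (i : I), v (c ⟨I, hI⟩ j i) ≤ 1 := by
      intro j i
      by_contra hne
      push Not at hne
      apply hv
      simp only [mem_union, Set.Finite.mem_toFinset, Set.mem_iUnion]
      exact Or.inr ⟨⟨I, hI⟩, j, i, hne⟩
    obtain ⟨j, hj⟩ := sv_att v x
    have hlt : v (x j) < sv v x := by
      rw [hc ⟨I, hI⟩ x j]
      apply sum_lt_v v _ _ (sv_pos v hx)
      intro i _
      rw [map_mul]
      have hm : Meets (a i) x v := by
        have := hIs i.2
        simpa using this
      unfold Meets at hm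
      rw [hs1, one_mul] at hm
      calc v (c ⟨I, hI⟩ j i) * v (lin (a i) x) ≤ 1 * v (lin (a i) x) :=
            mul_le_mul_of_nonneg_right (hc1 j i) (apply_nonneg _ _)
        _ = v (lin (a i) x) := one_mul _
        _ < _ := hm
    exact absurd hj (ne_of_gt hlt)

lemma meets_fin {b x : Fin (n + 1) → K} (hb : b ≠ 0) (hx : x ≠ 0) (hl : lin b x ≠ 0) :
    {v : FinitePlace K | Meets b x v}.Finite := by
  refine (((sv_fin hb).union (sv_fin hx)).union (FinitePlace.hasFiniteMulSupport hl)).subset ?_
  intro v hv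
  by_contra hne
  simp only [Set.mem_union, Function.mem_mulSupport, not_or, not_not] at hne
  obtain ⟨⟨h1, h2⟩, h3⟩ := hne
  have h : v (lin b x) < sv v b * sv v x := hv
  rw [h1, h2, h3] at h
  norm_num at h

lemma not_meets {b x : Fin (n + 1) → K} {v : FinitePlace K} (h1 : sv v b = 1) (h : ¬ Meets b x v) :
    v (lin b x) = sv v x := by
  have h2 := lin_le v b x
  unfold Meets at h
  rw [h1, one_mul] at h h2
  exact le_antisymm h2 (not_lt.1 h)

lemma height_ratio (b b0 : Fin (n + 1) → K) : ∃ C : ℝ, 0 < C ∧ ∀ x : Fin (n + 1) → K,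
    mulHeight₁ (lin b x / lin b0 x) ≤ C * mulHeight x := by
  refine ⟨Nat.card (Fin (n + 1)) ^ totalWeight K *
    mulHeight (fun p : Fin 2 × Fin (n + 1) => (![b, b0] p.1) p.2), ?_, fun x => ?_⟩
  · have : 0 < Nat.card (Fin (n + 1)) := Nat.card_pos
    positivity
  · rw [mulHeight₁_div_eq_mulHeight]
    have h := mulHeight_linearMap_apply_le (fun p : Fin 2 × Fin (n + 1) => (![b, b0] p.1) p.2) x
    refine le_trans (le_of_eq ?_) h
    congr 1
    ext j
    fin_cases j <;> simp [lin]

end Pool.Agent.H57R3.VJ
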