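import Mathlib

set_option autoImplicit false

open Finset
open scoped Classical

namespace Pool.Agent.H57R3.VJ

lemma count_meet {r n : ℕ} (T : Finset (Fin r)) :
    (((powersetCard (n + 1) (univ : Finset (Fin r))).filter fun I => ¬ Disjoint I T).card : ℝ) =
      (r.choose (n + 1) : ℝ) - ((r - T.card).choose (n + 1) : ℝ) := by
  have h1 := Finset.card_filter_add_card_filter_not (s := powersetCard (n + 1) (univ : Finset (Fin r)))
    (fun I => Disjoint I T)
  have h2 : (powersetCard (n + 1) (univ : Finset (Fin r))).filter (fun I => Disjoint I T) =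
      powersetCard (n + 1) Tᶜ := by
    ext I
    simp only [mem_filter, mem_powersetCard, subset_univ, true_and]
    rw [and_comm, Finset.subset_compl_iff_disjoint_right]
  rw [h2, card_powersetCard, card_powersetCard, card_compl, Fintype.card_fin, card_univ, Fintype.card_fin] at h1
  rw [← h1]
  push_cast
  ring

/-- averaging over the `n + 1`-element subsets -/
lemma average {r n : ℕ} (hr : n + 1 ≤ r) {ι : Type*} (P : Finset ι) (L : ι → ℝ) (hL : ∀ v ∈ P, 0 ≤ L v)
    (T : ι → Finset (Fin r)) (hT1 : ∀ v ∈ P, 1 ≤ (T v).card) (hTn : ∀ v ∈ P, (T v).card ≤ n)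
    {α β : ℝ} (hα : 0 ≤ α) (hβ : 0 ≤ β)
    (hg : ∀ t : ℕ, 1 ≤ t → t ≤ n → (r.choose (n + 1) : ℝ) - ((r - t).choose (n + 1) : ℝ) ≤ α + β * t)
    {A B : ℝ} (hA : ∑ v ∈ P, L v ≤ A) (hB : ∀ i : Fin r, ∑ v ∈ P.filter (fun v => i ∈ T v), L v ≤ B) :
    ∃ I : Finset (Fin r), I.card = n + 1 ∧
      ∑ v ∈ P.filter (fun v => ¬ Disjoint I (T v)), L v ≤ (α * A + β * (r * B)) / (r.choose (n + 1) : ℝ) := by
  have hpos : (0 : ℝ) < (r.choose (n + 1) : ℝ) := by exact_mod_cast Nat.choose_pos hr
  have hne : (powersetCard (n + 1) (univ : Finset (Fin r))).Nonempty := by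
    rw [powersetCard_nonempty, card_univ, Fintype.card_fin]; exact hr
  have key : ∑ I ∈ powersetCard (n + 1) (univ : Finset (Fin r)),
      ∑ v ∈ P.filter (fun v => ¬ Disjoint I (T v)), L v ≤ α * A + β * (r * B) := by
    calc ∑ I ∈ powersetCard (n + 1) (univ : Finset (Fin r)), ∑ v ∈ P.filter (fun v => ¬ Disjoint I (T v)), L v
        = ∑ I ∈ powersetCard (n + 1) (univ : Finset (Fin r)), ∑ v ∈ P, if ¬ Disjoint I (T v) then L v else 0 := by
          apply sum_congr rfl
          intro I _
          rw [sum_filter]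
      _ = ∑ v ∈ P, ∑ I ∈ powersetCard (n + 1) (univ : Finset (Fin r)), if ¬ Disjoint I (T v) then L v else 0 :=
          sum_comm
      _ = ∑ v ∈ P, ((r.choose (n + 1) : ℝ) - ((r - (T v).card).choose (n + 1) : ℝ)) * L v := by
          apply sum_congr rfl
          intro v _
          rw [← sum_filter, sum_const, nsmul_eq_mul, count_meet]
      _ ≤ ∑ v ∈ P, (α + β * (T v).card) * L v := by
          apply sum_le_sum
          intro v hv
          exact mul_le_mul_of_nonneg_right (hg _ (hT1 v hv) (hTn v hv)) (hL v hv)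
      _ = α * ∑ v ∈ P, L v + β * ∑ v ∈ P, ((T v).card : ℝ) * L v := by
          rw [mul_sum, mul_sum, ← sum_add_distrib]
          apply sum_congr rfl
          intro v _
          ring
      _ = α * ∑ v ∈ P, L v + β * ∑ i : Fin r, ∑ v ∈ P.filter (fun v => i ∈ T v), L v := by
          congr 2
          simp only [sum_filter]
          rw [sum_comm]
          apply sum_congr rfl
          intro v _
          rw [← sum_filter, sum_const, nsmul_eq_mul]
          congr 2
          simp
      _ ≤ α * A + β * (r * B) := by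
          apply add_le_add (mul_le_mul_of_nonneg_left hA hα)
          apply mul_le_mul_of_nonneg_left _ hβ
          calc ∑ i : Fin r, ∑ v ∈ P.filter (fun v => i ∈ T v), L v ≤ ∑ i : Fin r, B :=
                sum_le_sum fun i _ => hB i
            _ = r * B := by rw [sum_const, card_univ, Fintype.card_fin, nsmul_eq_mul]
  have hsum : ∑ I ∈ powersetCard (n + 1) (univ : Finset (Fin r)), (α * A + β * (r * B)) / (r.choose (n + 1) : ℝ) =
      α * A + β * (r * B) := by
    rw [sum_const, card_powersetCard, card_univ, Fintype.card_fin, nsmul_eq_mul]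
    field_simp
  obtain ⟨I, hI, hle⟩ := exists_le_of_sum_le hne (key.trans (le_of_eq hsum.symm))
  exact ⟨I, (mem_powersetCard.1 hI).2, hle⟩

/-- the two linear majorants -/
lemma major_one (r n : ℕ) (t : ℕ) (ht : t ≤ n) :
    (r.choose (n + 1) : ℝ) - ((r - t).choose (n + 1) : ℝ) ≤
      ((r.choose (n + 1) : ℝ) - ((r - n).choose (n + 1) : ℝ)) + 0 * t := by
  have : (r - n).choose (n + 1) ≤ (r - t).choose (n + 1) := Nat.choose_le_choose _ (by omega)
  have h : ((r - n).choose (n + 1) : ℝ) ≤ ((r - t).choose (n + 1) : ℝ) := by exact_mod_cast this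
  linarith

lemma major_two (r n : ℕ) (hn : 1 ≤ n) (hr : n + 1 ≤ r) (t : ℕ) (ht : 1 ≤ t) (htn : t ≤ n) :
    (r.choose (n + 1) : ℝ) - ((r - t).choose (n + 1) : ℝ) ≤
      ((r - 2).choose (n - 1) : ℝ) + ((r - 2).choose n : ℝ) * t := by
  obtain ⟨m, rfl⟩ : ∃ m, r = m + 2 := ⟨r - 2, by omega⟩
  obtain ⟨k, rfl⟩ : ∃ k, n = k + 1 := ⟨n - 1, by omega⟩
  simp only [Nat.add_sub_cancel]
  induction t, ht using Nat.le_induction with
  | base =>
    have e1 : (m + 2).choose (k + 1 + 1) = (m + 1).choose (k + 1) + (m + 1).choose (k + 1 + 1) := Nat.choose_succ_succ _ _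
    have e2 : (m + 1).choose (k + 1) = m.choose k + m.choose (k + 1) := Nat.choose_succ_succ _ _
    have e3 : m + 2 - 1 = m + 1 := by omega
    rw [e3, e1, e2]
    push_cast
    linarith
  | succ t ht ih =>
    have ih' := ih (by omega)
    have e0 : m + 2 - t = (m + 1 - t) + 1 := by omega
    have e1 : m + 2 - (t + 1) = m + 1 - t := by omega
    have e2 : (m + 1 - t + 1).choose (k + 1 + 1) = (m + 1 - t).choose (k + 1) + (m + 1 - t).choose (k + 1 + 1) :=
      Nat.choose_succ_succ _ _
    have e3 : (m + 1 - t).choose (k + 1) ≤ m.choose (k + 1) := Nat.choose_le_choose _ (by omega)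
    have e3' : ((m + 1 - t).choose (k + 1) : ℝ) ≤ (m.choose (k + 1) : ℝ) := by exact_mod_cast e3
    rw [e0, e2] at ih'
    rw [e1]
    push_cast at ih' ⊢
    linarith

end Pool.Agent.H57R3.VJ
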