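import Mathlib
import Pool.Agent.H57R3.VJ.E
import Pool.Agent.H57R3.VJ.F

set_option autoImplicit false

open NumberField Height Finset IsDedekindDomain Filter LinearAlgebra.Projectivization
open scoped Classical

namespace Pool.Agent.H57R3.VJ

variable {K : Type*} [Field K] [NumberField K] {n r : ℕ}

/-- the truncated counting function of the arrangement, places outside `S` -/
noncomputable def N1 (S : Finset (FinitePlace K)) (a : Fin r → Fin (n + 1) → K) (x : Fin (n + 1) → K) : ℝ :=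
  ∑ᶠ v : FinitePlace K, if v ∉ S ∧ ∃ i, Meets (a i) x v then Real.log (NN v) else 0

lemma GenPos.ne_zero {a : Fin r → Fin (n + 1) → K} (ha : GenPos a) (hr : n + 1 ≤ r) (i : Fin r) : a i ≠ 0 := by
  obtain ⟨I, hI1, _, hI2⟩ := Finset.exists_subsuperset_card_eq (s := {i}) (t := univ) (n := n + 1)
    (subset_univ _) (by simp) (by simpa using hr)
  have hi : i ∈ I := hI1 (mem_singleton_self i)
  exact (ha I hI2).ne_zero ⟨i, hi⟩

lemma fiber_card (a : Fin r → Fin (n + 1) → K) (ha : GenPos a) {δ : ℝ} (hδ : 0 < δ) :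
    ∃ C : ℝ, 0 < C ∧ ∀ B : ℝ, 1 ≤ B → ∀ I : Finset (Fin r), I.card = n + 1 → ∀ Q : Finset (FinitePlace K),
      ∀ PP : Finset (ℙ K (Fin (n + 1) → K)), (∀ P ∈ PP, (∀ i, lin (a i) P.rep ≠ 0) ∧ mulHeight P.rep ≤ B ∧
        ∀ v ∉ Q, ∀ i ∈ I, v (lin (a i) P.rep) = sv v P.rep) →
      (PP.card : ℝ) ≤ (C * B ^ δ * (∏ v ∈ Q, NN v) ^ δ) ^ (n + 1) := by
  obtain ⟨C1, hC1, h1⟩ := supp_card (K := K) hδ
  have hh : ∀ i i0 : Fin r, ∃ C : ℝ, 0 < C ∧ ∀ x : Fin (n + 1) → K,
    mulHeight₁ (lin (a i) x / lin (a i0) x) ≤ C * mulHeight x := fun i i0 => height_ratio (a i) (a i0)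
  choose D0 hD0 hD using hh
  set D : ℝ := 1 + ∑ i, ∑ i0, D0 i i0 with hDdef
  have hDnn : ∀ i, 0 ≤ ∑ i0, D0 i i0 := fun i => sum_nonneg fun i0 _ => (hD0 i i0).le
  have hD1 : 1 ≤ D := by
    have : 0 ≤ ∑ i, ∑ i0, D0 i i0 := sum_nonneg fun i _ => hDnn i
    linarith
  have hDle : ∀ i i0, D0 i i0 ≤ D := by
    intro i i0
    have e1 : D0 i i0 ≤ ∑ i0, D0 i i0 := single_le_sum (f := fun i0 => D0 i i0) (fun j _ => (hD0 i j).le) (mem_univ i0)
    have e2 : ∑ i0, D0 i i0 ≤ ∑ i, ∑ i0, D0 i i0 :=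
      single_le_sum (f := fun i => ∑ i0, D0 i i0) (fun j _ => hDnn j) (mem_univ i)
    linarith
  refine ⟨C1 * D ^ δ, by positivity, fun B hB I hI Q PP hPP => ?_⟩
  have hIne : I.Nonempty := by
    rw [← card_pos, hI]; omega
  obtain ⟨i0, hi0⟩ := hIne
  obtain ⟨c, hc⟩ := inv_coeff hI (ha I hI)
  have hU : ∀ i : I, ((PP.image fun P => lin (a i) P.rep / lin (a i0) P.rep).card : ℝ) ≤
      C1 * D ^ δ * B ^ δ * (∏ v ∈ Q, NN v) ^ δ := by
    intro i
    have := h1 (D * B) (by nlinarith) Q (PP.image fun P => lin (a i) P.rep / lin (a i0) P.rep) (by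
      intro u hu
      obtain ⟨P, hP, rfl⟩ := mem_image.1 hu
      obtain ⟨g1, g2, g3⟩ := hPP P hP
      refine ⟨div_ne_zero (g1 _) (g1 _), ?_, ?_⟩
      · refine (hD i i0 P.rep).trans ?_
        exact mul_le_mul (hDle _ _) g2 (by positivity) (by linarith)
      · intro v hv
        rw [map_div₀, g3 v hv i i.2, g3 v hv i0 hi0]
        exact div_self (sv_pos v P.rep_nonzero).ne')
    rw [Real.mul_rpow (by linarith) (by linarith), ← mul_assoc] at this
    exact this
  have hcard : PP.card ≤ (Fintype.piFinset fun i : I => PP.image fun P => lin (a i) P.rep / lin (a i0) P.rep).card := by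
    apply Finset.card_le_card_of_injOn (fun P => fun i : I => lin (a i) P.rep / lin (a i0) P.rep)
    · intro P hP
      rw [mem_coe, Fintype.mem_piFinset]
      intro i
      exact mem_image_of_mem _ hP
    · intro P hP P' hP' hEq
      obtain ⟨g1, _, _⟩ := hPP P hP
      obtain ⟨g1', _, _⟩ := hPP P' hP'
      have hx : P.rep = (lin (a i0) P.rep / lin (a i0) P'.rep) • P'.rep := by
        ext j
        rw [Pi.smul_apply, smul_eq_mul, hc P.rep j, hc P'.rep j, mul_sum]
        apply sum_congr rfl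
        intro i _
        have h2 : lin (a i) P.rep / lin (a i0) P.rep = lin (a i) P'.rep / lin (a i0) P'.rep := congrFun hEq i
        have e1 := g1 i0
        have e2 := g1' i0
        rw [div_eq_div_iff e1 e2] at h2
        field_simp
        rw [mul_assoc, h2]
        ring
      rw [← P.mk_rep, ← P'.mk_rep, Projectivization.mk_eq_mk_iff']
      exact ⟨_, hx.symm⟩
  have hprod : ((Fintype.piFinset fun i : I => PP.image fun P => lin (a i) P.rep / lin (a i0) P.rep).card : ℝ) ≤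
      (C1 * D ^ δ * B ^ δ * (∏ v ∈ Q, NN v) ^ δ) ^ (n + 1) := by
    rw [Fintype.card_piFinset, Nat.cast_prod]
    calc ∏ i : I, ((PP.image fun P => lin (a i) P.rep / lin (a i0) P.rep).card : ℝ) ≤
        ∏ i : I, (C1 * D ^ δ * B ^ δ * (∏ v ∈ Q, NN v) ^ δ) := by
          apply Finset.prod_le_prod
          · intro i _; exact Nat.cast_nonneg _
          · intro i _; exact hU i
      _ = _ := by rw [Finset.prod_const, card_univ, Fintype.card_coe, hI]
  exact le_trans (by exact_mod_cast hcard) hprod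

lemma point_choice {a : Fin r → Fin (n + 1) → K} (hr : n + 1 ≤ r) (ha0 : ∀ i, a i ≠ 0)
    {S S0 : Finset (FinitePlace K)} (hS : S ⊆ S0) (hs1 : ∀ v ∉ S0, ∀ i, sv v (a i) = 1)
    (hs2 : ∀ v ∉ S0, ∀ x : Fin (n + 1) → K, x ≠ 0 → (univ.filter fun i => Meets (a i) x v).card ≤ n)
    {α β : ℝ} (hα : 0 ≤ α) (hβ : 0 ≤ β)
    (hg : ∀ t : ℕ, 1 ≤ t → t ≤ n → (r.choose (n + 1) : ℝ) - ((r - t).choose (n + 1) : ℝ) ≤ α + β * t)
    {c : ℝ} (hc : ∀ i, Real.log (((n + 1 : ℕ) : ℝ) ^ (Module.finrank ℚ K) * mulHeight (a i)) ≤ c)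
    {x : Fin (n + 1) → K} (hx : x ≠ 0) (hl : ∀ i, lin (a i) x ≠ 0) {A h : ℝ} (hA : N1 S a x ≤ A)
    (hh : Real.log (mulHeight x) ≤ h) :
    ∃ IQ : Finset (Fin r) × Finset (FinitePlace K), IQ.1.card = n + 1 ∧ Disjoint IQ.2 S0 ∧
      (∀ v ∉ IQ.2 ∪ S0, ∀ i ∈ IQ.1, v (lin (a i) x) = sv v x) ∧
      ∑ v ∈ IQ.2, Real.log (NN v) ≤ (α * A + β * (r * (c + h))) / (r.choose (n + 1) : ℝ) := by
  have hfin : (⋃ i, {v : FinitePlace K | Meets (a i) x v}).Finite :=
    Set.finite_iUnion fun i => meets_fin (ha0 i) hx (hl i)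
  have hL : ∀ v : FinitePlace K, 0 ≤ Real.log (NN v) := fun v => Real.log_nonneg (by linarith [two_le_NN v])
  have hmem : ∀ v, v ∈ hfin.toFinset \ S0 ↔ (∃ i, Meets (a i) x v) ∧ v ∉ S0 := by
    intro v
    simp
  obtain ⟨I, hI, hle⟩ := average hr (hfin.toFinset \ S0) (fun v => Real.log (NN v)) (fun v _ => hL v)
    (fun v => univ.filter fun i => Meets (a i) x v)
    (fun v hv => by
      obtain ⟨⟨i, hi⟩, _⟩ := (hmem v).1 hv
      exact card_pos.2 ⟨i, by simpa using hi⟩)
    (fun v hv => hs2 v ((hmem v).1 hv).2 x hx) hα hβ hg (A := A) (B := c + h)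
    (by
      refine le_trans ?_ hA
      unfold N1
      rw [finsum_eq_sum_of_support_subset _ (s := hfin.toFinset) (by
        intro v hv
        rw [Function.mem_support] at hv
        have : v ∉ S ∧ ∃ i, Meets (a i) x v := by
          by_contra hne
          exact hv (if_neg hne)
        simpa using this.2)]
      calc ∑ v ∈ hfin.toFinset \ S0, Real.log (NN v) =
          ∑ v ∈ hfin.toFinset \ S0, if v ∉ S ∧ ∃ i, Meets (a i) x v then Real.log (NN v) else 0 := by
            apply sum_congr rfl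
            intro v hv
            obtain ⟨h1, h2⟩ := (hmem v).1 hv
            rw [if_pos ⟨fun h => h2 (hS h), h1⟩]
        _ ≤ _ := by
            apply sum_le_sum_of_subset_of_nonneg sdiff_subset
            intro v _ _
            split_ifs
            · exact hL v
            · exact le_rfl)
    (by
      intro i
      have hm0 : 0 < mulHeight (a i) := by positivity
      have hm1 : 0 < mulHeight x := by positivity
      have hn1 : (0:ℝ) < ((n + 1 : ℕ) : ℝ) := by positivity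
      have hf := fmt (ha0 i) hx (hl i)
        ((hfin.toFinset \ S0).filter fun v => i ∈ univ.filter fun i => Meets (a i) x v) (by
          intro v hv
          have := (mem_filter.1 hv).2
          simpa using this)
      rw [← Real.log_prod (fun v _ => (NN_pos v).ne')]
      calc Real.log _ ≤ Real.log (((n + 1 : ℕ) : ℝ) ^ (Module.finrank ℚ K) * mulHeight (a i) * mulHeight x) :=
            Real.log_le_log (prod_pos fun v _ => NN_pos v) hf
        _ = Real.log (((n + 1 : ℕ) : ℝ) ^ (Module.finrank ℚ K) * mulHeight (a i)) + Real.log (mulHeight x) :=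
            Real.log_mul (by positivity) hm1.ne'
        _ ≤ c + h := add_le_add (hc i) hh)
  refine ⟨(I, (hfin.toFinset \ S0).filter fun v => ¬ Disjoint I (univ.filter fun i => Meets (a i) x v)), hI, ?_, ?_, hle⟩
  · rw [Finset.disjoint_left]
    intro v hv
    exact ((hmem v).1 (mem_filter.1 hv).1).2
  · intro v hv i hi
    simp only [mem_union, not_or] at hv
    obtain ⟨hv1, hv2⟩ := hv
    apply not_meets (hs1 v hv2 i)
    intro hm
    apply hv1
    rw [mem_filter]
    refine ⟨(hmem v).2 ⟨⟨i, hm⟩, hv2⟩, ?_⟩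
    rw [Finset.not_disjoint_iff]
    exact ⟨i, hi, by simpa using hm⟩

end Pool.Agent.H57R3.VJ
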