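import Mathlib
import Pool.Agent.H57R3.VJ.G

set_option autoImplicit false

open NumberField Height Finset IsDedekindDomain Filter LinearAlgebra.Projectivization
open scoped Classical

namespace Pool.Agent.H57R3.VJ

variable {K : Type*} [Field K] [NumberField K] {n r : ℕ}

lemma fin_of_bdd {α : Type*} (s : Set α) (N : ℝ) (h : ∀ F : Finset α, (↑F : Set α) ⊆ s → (F.card : ℝ) ≤ N) :
    s.Finite ∧ (s.ncard : ℝ) ≤ N := by
  have hf : s.Finite := by
    by_contra hinf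
    obtain ⟨t, ht1, ht2⟩ := Set.Infinite.exists_subset_card_eq (s := s) hinf (⌊N⌋₊ + 1)
    have h1 := h t ht1
    rw [ht2] at h1
    push_cast at h1
    have h2 := Nat.lt_floor_add_one N
    linarith
  refine ⟨hf, ?_⟩
  rw [Set.ncard_eq_toFinset_card s hf]
  exact h _ (by simp)

theorem count_main {a : Fin r → Fin (n + 1) → K} (ha : GenPos a) (hr : n + 1 ≤ r) (S : Finset (FinitePlace K))
    (θ C : ℝ) (hθ : 0 ≤ θ) {α β : ℝ} (hα : 0 ≤ α) (hβ : 0 ≤ β)
    (hg : ∀ t : ℕ, 1 ≤ t → t ≤ n → (r.choose (n + 1) : ℝ) - ((r - t).choose (n + 1) : ℝ) ≤ α + β * t)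
    {δ : ℝ} (hδ : 0 < δ) :
    ∃ M : ℝ, ∀ B : ℝ, 1 ≤ B → ∀ PP : Finset (ℙ K (Fin (n + 1) → K)),
      (∀ P ∈ PP, (∀ i, lin (a i) P.rep ≠ 0) ∧ mulHeight P.rep ≤ B ∧
        N1 S a P.rep ≤ θ * Real.log (mulHeight P.rep) + C) →
      (PP.card : ℝ) ≤ M * B ^ ((α * θ + β * r) / (r.choose (n + 1) : ℝ) + δ) := by
  have ha0 := fun i => ha.ne_zero hr i
  obtain ⟨S0, hS, hs1, hs2⟩ := bad_exists ha ha0 S
  have hchpos : (0 : ℝ) < (r.choose (n + 1) : ℝ) := by exact_mod_cast Nat.choose_pos hr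
  set ch : ℝ := (r.choose (n + 1) : ℝ) with hch
  set κ : ℝ := (α * θ + β * r) / ch with hκ
  have hκ0 : 0 ≤ κ := by positivity
  -- the constants
  set c : ℝ := ∑ i, |Real.log (((n + 1 : ℕ) : ℝ) ^ (Module.finrank ℚ K) * mulHeight (a i))| with hcdef
  have hc0 : 0 ≤ c := sum_nonneg fun i _ => abs_nonneg _
  have hc : ∀ i, Real.log (((n + 1 : ℕ) : ℝ) ^ (Module.finrank ℚ K) * mulHeight (a i)) ≤ c := fun i =>
    (le_abs_self _).trans (single_le_sum
      (f := fun i => |Real.log (((n + 1 : ℕ) : ℝ) ^ (Module.finrank ℚ K) * mulHeight (a i))|)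
      (fun j _ => abs_nonneg _) (mem_univ i))
  set δ' : ℝ := δ / (((n + 1 : ℕ) : ℝ) * (1 + κ)) with hδ'
  have hn1 : (0 : ℝ) < ((n + 1 : ℕ) : ℝ) := by positivity
  have hδ'0 : 0 < δ' := by positivity
  obtain ⟨C1, hC1, h1⟩ := fiber_card a ha hδ'0
  obtain ⟨C2, hC2, h2⟩ := sets_card K
  set c' : ℝ := (α * |C| + β * (r * c)) / ch with hc'
  have hc'0 : 0 ≤ c' := by positivity
  set W : ℝ := ∏ v ∈ S0, NN v with hW
  have hW1 : 1 ≤ W := Finset.one_le_prod fun v _ => by linarith [two_le_NN v]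
  have hW0 : 0 < W := by linarith
  set E : ℝ := Real.exp c' with hE
  have hE1 : 1 ≤ E := Real.one_le_exp hc'0
  have hE0 : 0 < E := by linarith
  refine ⟨(C1 * (E * W) ^ δ') ^ (n + 1) * (ch * (C2 * E)), fun B hB PP hPP => ?_⟩
  have hB0 : 0 < B := by linarith
  set Y : ℝ := E * B ^ κ with hY
  have hBκ1 : 1 ≤ B ^ κ := Real.one_le_rpow hB hκ0
  have hY1 : 1 ≤ Y := by
    calc (1:ℝ) = 1 * 1 := (one_mul 1).symm
      _ ≤ E * B ^ κ := mul_le_mul hE1 hBκ1 zero_le_one hE0.le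
  have hY0 : 0 < Y := by linarith
  have hchoice : ∀ P : ℙ K (Fin (n + 1) → K), ∃ IQ : Finset (Fin r) × Finset (FinitePlace K),
      P ∈ PP → IQ.1.card = n + 1 ∧ Disjoint IQ.2 S0 ∧
      (∀ v ∉ IQ.2 ∪ S0, ∀ i ∈ IQ.1, v (lin (a i) P.rep) = sv v P.rep) ∧ ∏ v ∈ IQ.2, NN v ≤ Y := by
    intro P
    by_cases hP : P ∈ PP
    · obtain ⟨g1, g2, g3⟩ := hPP P hP
      have hlog : Real.log (mulHeight P.rep) ≤ Real.log B := Real.log_le_log (by positivity) g2
      have hA : N1 S a P.rep ≤ θ * Real.log B + |C| :=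
        g3.trans (add_le_add (mul_le_mul_of_nonneg_left hlog hθ) (le_abs_self C))
      obtain ⟨IQ, k1, k2, k3, k4⟩ := point_choice hr ha0 hS hs1 hs2 hα hβ hg hc P.rep_nonzero g1 hA hlog
      refine ⟨IQ, fun _ => ⟨k1, k2, k3, ?_⟩⟩
      rw [← Real.log_le_log_iff (prod_pos fun v _ => NN_pos v) hY0, Real.log_prod (fun v _ => (NN_pos v).ne')]
      refine k4.trans (le_of_eq ?_)
      rw [hY, Real.log_mul hE0.ne' (by positivity), hE, Real.log_exp, Real.log_rpow hB0, hc', hκ]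
      ring
    · exact ⟨default, fun h => absurd h hP⟩
  choose g hgP using hchoice
  set QQ : Finset (Finset (FinitePlace K)) := PP.image fun P => (g P).2 with hQQ
  have hQcard : (QQ.card : ℝ) ≤ C2 * Y := by
    apply h2 Y hY1
    intro Q hQ
    obtain ⟨P, hP, rfl⟩ := mem_image.1 hQ
    exact (hgP P hP).2.2.2
  have himg : ((PP.image g).card : ℝ) ≤ ch * (C2 * Y) := by
    have hsub : PP.image g ⊆ (powersetCard (n + 1) (univ : Finset (Fin r))) ×ˢ QQ := by
      intro IQ hIQ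
      obtain ⟨P, hP, rfl⟩ := mem_image.1 hIQ
      rw [mem_product]
      exact ⟨mem_powersetCard.2 ⟨subset_univ _, (hgP P hP).1⟩, mem_image_of_mem _ hP⟩
    have h3 := card_le_card hsub
    rw [card_product, card_powersetCard, card_univ, Fintype.card_fin] at h3
    calc ((PP.image g).card : ℝ) ≤ ((r.choose (n + 1) * QQ.card : ℕ) : ℝ) := by exact_mod_cast h3
      _ = ch * QQ.card := by push_cast; rfl
      _ ≤ _ := mul_le_mul_of_nonneg_left hQcard hchpos.le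
  set F : ℝ := (C1 * B ^ δ' * (Y * W) ^ δ') ^ (n + 1) with hF
  have hF0 : 0 ≤ F := by positivity
  have hfib : ∀ IQ ∈ PP.image g, (PP.filter fun P => g P = IQ).card ≤ ⌊F⌋₊ := by
    intro IQ hIQ
    apply Nat.le_floor
    obtain ⟨P0, hP0, rfl⟩ := mem_image.1 hIQ
    have h3 := h1 B hB (g P0).1 (hgP P0 hP0).1 ((g P0).2 ∪ S0) (PP.filter fun P => g P = g P0) (by
      intro P hP
      obtain ⟨hP1, hP2⟩ := mem_filter.1 hP
      obtain ⟨g1, g2, g3⟩ := hPP P hP1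
      refine ⟨g1, g2, ?_⟩
      rw [← hP2]
      exact (hgP P hP1).2.2.1)
    refine h3.trans ?_
    rw [hF, prod_union (hgP P0 hP0).2.1]
    apply pow_le_pow_left₀
    · have : 0 ≤ (∏ v ∈ (g P0).2, NN v) * ∏ v ∈ S0, NN v :=
        mul_nonneg (prod_nonneg fun v _ => (NN_pos v).le) (prod_nonneg fun v _ => (NN_pos v).le)
      positivity
    · apply mul_le_mul_of_nonneg_left _ (by positivity)
      apply Real.rpow_le_rpow
      · exact mul_nonneg (prod_nonneg fun v _ => (NN_pos v).le) (prod_nonneg fun v _ => (NN_pos v).le)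
      · exact mul_le_mul_of_nonneg_right (hgP P0 hP0).2.2.2 hW0.le
      · exact hδ'0.le
  have htot := card_le_mul_card_image PP ⌊F⌋₊ hfib
  calc (PP.card : ℝ) ≤ ((⌊F⌋₊ * (PP.image g).card : ℕ) : ℝ) := by exact_mod_cast htot
    _ = (⌊F⌋₊ : ℝ) * ((PP.image g).card : ℝ) := by push_cast; rfl
    _ ≤ F * (ch * (C2 * Y)) := mul_le_mul (Nat.floor_le hF0) himg (Nat.cast_nonneg _) hF0
    _ = (C1 * (E * W) ^ δ') ^ (n + 1) * (ch * (C2 * E)) * B ^ (κ + δ) := by
        have e1 : (Y * W) ^ δ' = (E * W) ^ δ' * B ^ (κ * δ') := by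
          rw [hY, show E * B ^ κ * W = (E * W) * B ^ κ by ring, Real.mul_rpow (by positivity) (by positivity),
            ← Real.rpow_mul hB0.le]
        have e2 : F = (C1 * (E * W) ^ δ') ^ (n + 1) * B ^ (δ' * (1 + κ) * ((n + 1 : ℕ) : ℝ)) := by
          rw [hF, e1]
          have : C1 * B ^ δ' * ((E * W) ^ δ' * B ^ (κ * δ')) = C1 * (E * W) ^ δ' * B ^ (δ' * (1 + κ)) := by
            rw [show δ' * (1 + κ) = δ' + κ * δ' by ring, Real.rpow_add hB0]
            ring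
          rw [this, mul_pow, ← Real.rpow_natCast (B ^ (δ' * (1 + κ))), ← Real.rpow_mul hB0.le]
        have e3 : δ' * (1 + κ) * ((n + 1 : ℕ) : ℝ) = δ := by
          rw [hδ']
          have : (1 + κ) ≠ 0 := by positivity
          field_simp
        rw [e2, e3, hY, Real.rpow_add hB0]
        ring

end Pool.Agent.H57R3.VJ
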