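import Mathlib
import Pool.Agent.H57R3.VJ.L
import Pool.Agent.Helper259.HtExt

set_option autoImplicit false

open NumberField Height Finset IsDedekindDomain Filter LinearAlgebra.Projectivization Module
open scoped Classical

namespace Pool.Agent.H57R3.VJ

variable {K L : Type*} [Field K] [NumberField K] [Field L] [NumberField L] [Algebra K L] {n r : ℕ}

/-- the finite place `w` of `L` lies above the finite place `v` of `K` -/
def Above (w : FinitePlace L) (v : FinitePlace K) : Prop :=
  w.maximalIdeal.asIdeal.comap (algebraMap (𝓞 K) (𝓞 L)) = v.maximalIdeal.asIdeal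

lemma exists_below (w : FinitePlace L) : ∃ v : FinitePlace K, Above w v := by
  have hp : (w.maximalIdeal.asIdeal.comap (algebraMap (𝓞 K) (𝓞 L))).IsPrime :=
    Ideal.IsPrime.comap _
  have hne : w.maximalIdeal.asIdeal.comap (algebraMap (𝓞 K) (𝓞 L)) ≠ ⊥ := by
    intro h
    have h1 : (Ideal.absNorm w.maximalIdeal.asIdeal : 𝓞 L) ∈ w.maximalIdeal.asIdeal := Ideal.absNorm_mem _
    have h2 : ((Ideal.absNorm w.maximalIdeal.asIdeal : ℕ) : 𝓞 K) ∈
        w.maximalIdeal.asIdeal.comap (algebraMap (𝓞 K) (𝓞 L)) := by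
      rw [Ideal.mem_comap, map_natCast]
      exact h1
    rw [h, Ideal.mem_bot] at h2
    have h3 : Ideal.absNorm w.maximalIdeal.asIdeal = 0 := by exact_mod_cast h2
    have h4 := NN_pos w
    unfold NN at h4
    rw [h3] at h4
    simp at h4
  refine ⟨FinitePlace.mk ⟨_, hp, hne⟩, ?_⟩
  unfold Above
  rw [FinitePlace.maximalIdeal_mk]

lemma above_unique {w : FinitePlace L} {v v' : FinitePlace K} (h : Above w v) (h' : Above w v') : v = v' := by
  apply FinitePlace.maximalIdeal_injective
  exact HeightOneSpectrum.ext (h.symm.trans h')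

lemma prod_above (v : FinitePlace K) (W : Finset (FinitePlace L)) (hW : ∀ w ∈ W, Above w v) :
    ∏ w ∈ W, NN w ≤ NN v ^ finrank K L := by
  have h1 : ∏ w ∈ W, w.maximalIdeal.asIdeal ∣ (v.maximalIdeal.asIdeal).map (algebraMap (𝓞 K) (𝓞 L)) := by
    apply Finset.prod_dvd_of_coprime
    · intro w _ w' _ hne
      haveI : w.maximalIdeal.asIdeal.IsMaximal := w.maximalIdeal.isMaximal
      haveI : w'.maximalIdeal.asIdeal.IsMaximal := w'.maximalIdeal.isMaximal
      apply Ideal.isCoprime_of_isMaximal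
      intro h
      exact hne (FinitePlace.maximalIdeal_injective (HeightOneSpectrum.ext h))
    · intro w hw
      rw [Ideal.dvd_iff_le, Ideal.map_le_iff_le_comap]
      exact le_of_eq (hW w hw).symm
  have h2 := map_dvd (Ideal.absNorm (S := 𝓞 L)) h1
  rw [map_prod, Ideal.absNorm_algebraMap, Pool.Agent.Helper259.HtExt.finrank_int] at h2
  have hpos : 0 < Ideal.absNorm v.maximalIdeal.asIdeal ^ finrank K L := by
    apply pow_pos
    have h4 := NN_pos v
    unfold NN at h4
    exact_mod_cast h4
  have h3 := Nat.le_of_dvd hpos h2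
  unfold NN
  exact_mod_cast h3

lemma finite_above (v : FinitePlace K) : {w : FinitePlace L | Above w v}.Finite := by
  refine (finite_NN (K := L) (NN v ^ finrank K L)).subset ?_
  intro w hw
  have := prod_above v {w} (by
    intro w' hw'
    rw [mem_singleton] at hw'
    rw [hw']
    exact hw)
  rw [Finset.prod_singleton] at this
  exact this

/-- the places of `L` above `Q` -/
noncomputable def upF (L : Type*) [Field L] [NumberField L] [Algebra K L] (Q : Finset (FinitePlace K)) :
    Finset (FinitePlace L) := Q.biUnion fun v => (finite_above (L := L) v).toFinset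

lemma mem_upF {Q : Finset (FinitePlace K)} {w : FinitePlace L} : w ∈ upF L Q ↔ ∃ v ∈ Q, Above w v := by
  unfold upF
  simp only [mem_biUnion, Set.Finite.mem_toFinset, Set.mem_ofPred_eq]

lemma prod_upF (Q : Finset (FinitePlace K)) : ∏ w ∈ upF L Q, NN w ≤ (∏ v ∈ Q, NN v) ^ finrank K L := by
  unfold upF
  rw [prod_biUnion]
  · rw [← Finset.prod_pow]
    apply Finset.prod_le_prod
    · intro v _
      exact prod_nonneg fun w _ => (NN_pos w).le
    · intro v _
      apply prod_above
      intro w hw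
      rw [Set.Finite.mem_toFinset] at hw
      exact hw
  · intro v _ v' _ hne
    rw [Function.onFun, Finset.disjoint_left]
    intro w hw hw'
    rw [Set.Finite.mem_toFinset] at hw hw'
    exact hne (above_unique hw hw')

/-- base change of a vector -/
def up (L : Type*) [Field L] [Algebra K L] (x : Fin (n + 1) → K) : Fin (n + 1) → L := fun j => algebraMap K L (x j)

/-- the truncated counting function over `K` of an arrangement of hyperplanes over `L` -/
noncomputable def N1K (S : Finset (FinitePlace K)) (a : Fin r → Fin (n + 1) → L) (x : Fin (n + 1) → K) : ℝ :=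
  ∑ᶠ v : FinitePlace K, if v ∉ S ∧ ∃ w : FinitePlace L, Above w v ∧ ∃ i, Meets (a i) (up L x) w
    then Real.log (NN v) else 0

lemma up_ne {x : Fin (n + 1) → K} (hx : x ≠ 0) : up L x ≠ 0 := by
  intro h
  apply hx
  funext j
  have := congrFun h j
  simpa [up] using this

lemma lin_smul (b x : Fin (n + 1) → L) (c : L) : lin b (c • x) = c * lin b x := by
  unfold lin
  rw [mul_sum]
  apply sum_congr rfl
  intro j _
  rw [Pi.smul_apply, smul_eq_mul]
  ring

lemma sv_smul (w : FinitePlace L) (x : Fin (n + 1) → L) (c : L) : sv w (c • x) = w c * sv w x := by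
  obtain ⟨j, hj⟩ := sv_att w x
  obtain ⟨k, hk⟩ := sv_att w (c • x)
  apply le_antisymm
  · rw [hk, Pi.smul_apply, smul_eq_mul, map_mul]
    exact mul_le_mul_of_nonneg_left (le_sv w x k) (apply_nonneg _ _)
  · have := le_sv w (c • x) j
    rw [Pi.smul_apply, smul_eq_mul, map_mul] at this
    rw [hj]
    exact this

theorem norm_count {a : Fin r → Fin (n + 1) → L} (ha : GenPos a) (hr : n + 1 ≤ r) (S : Finset (FinitePlace K))
    (θ C : ℝ) (hθ : 0 ≤ θ) {δ : ℝ} (hδ : 0 < δ) :
    ∃ M : ℝ, ∀ B : ℝ, 1 ≤ B → ∀ PP : Finset (ℙ K (Fin (n + 1) → K)),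
      (∀ P ∈ PP, (∀ i, lin (a i) (up L P.rep) ≠ 0) ∧ mulHeight P.rep ≤ B ∧
        N1K S a P.rep ≤ θ * Real.log (mulHeight P.rep) + C) →
      (PP.card : ℝ) ≤ M * B ^ (θ + δ) := by
  have ha0 := fun i => ha.ne_zero hr i
  obtain ⟨S0, _, hs1, _⟩ := bad_exists ha ha0 ∅
  obtain ⟨I, _, hI⟩ := Finset.exists_subset_card_eq (s := (univ : Finset (Fin r))) (n := n + 1) (by simpa using hr)
  set m : ℕ := finrank K L with hm
  have hm0 : 0 < m := finrank_pos
  have hm0' : (0 : ℝ) < m := by exact_mod_cast hm0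
  have hn1 : (0 : ℝ) < ((n + 1 : ℕ) : ℝ) := by positivity
  set δ' : ℝ := δ / (((n + 1 : ℕ) : ℝ) * (m * (1 + θ))) with hδ'
  have hδ'0 : 0 < δ' := by positivity
  obtain ⟨C1, hC1, h1⟩ := fiber_card a ha hδ'0
  obtain ⟨C2, hC2, h2⟩ := sets_card K
  set E : ℝ := Real.exp |C| with hE
  have hE1 : 1 ≤ E := Real.one_le_exp (abs_nonneg _)
  have hE0 : 0 < E := by linarith
  set WS : ℝ := ∏ v ∈ S, NN v with hWS
  have hWS0 : 0 < WS := prod_pos fun v _ => NN_pos v
  set W0 : ℝ := ∏ w ∈ S0, NN w with hW0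
  have hW00 : 0 < W0 := prod_pos fun v _ => NN_pos v
  refine ⟨C2 * E * (C1 * ((E * WS) ^ m * W0) ^ δ') ^ (n + 1), fun B hB PP hPP => ?_⟩
  have hB0 : 0 < B := by linarith
  set Y : ℝ := E * B ^ θ with hY
  have hBθ : 1 ≤ B ^ θ := Real.one_le_rpow hB hθ
  have hY1 : 1 ≤ Y := by
    calc (1:ℝ) = 1 * 1 := (one_mul 1).symm
      _ ≤ E * B ^ θ := mul_le_mul hE1 hBθ zero_le_one hE0.le
  have hY0 : 0 < Y := by linarith
  -- the supports
  have hchoice : ∀ P : ℙ K (Fin (n + 1) → K), ∃ Q : Finset (FinitePlace K),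
      P ∈ PP → (∀ v, v ∈ Q ↔ v ∉ S ∧ ∃ w : FinitePlace L, Above w v ∧ ∃ i, Meets (a i) (up L P.rep) w) ∧
        ∏ v ∈ Q, NN v ≤ Y := by
    intro P
    by_cases hP : P ∈ PP
    · obtain ⟨g1, g2, g3⟩ := hPP P hP
      have hx := up_ne (L := L) P.rep_nonzero
      have hfin : {v : FinitePlace K | v ∉ S ∧ ∃ w : FinitePlace L, Above w v ∧ ∃ i, Meets (a i) (up L P.rep) w}.Finite := by
        have hf1 : (⋃ i, {w : FinitePlace L | Meets (a i) (up L P.rep) w}).Finite :=
          Set.finite_iUnion fun i => meets_fin (ha0 i) hx (g1 i)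
        choose g hg using fun w : FinitePlace L => exists_below (K := K) w
        refine (hf1.image g).subset ?_
        rintro v ⟨_, w, hw, i, hi⟩
        refine ⟨w, ?_, above_unique (hg w) hw⟩
        rw [Set.mem_iUnion]
        exact ⟨i, hi⟩
      refine ⟨hfin.toFinset, fun _ => ⟨fun v => by simp, ?_⟩⟩
      rw [← Real.log_le_log_iff (prod_pos fun v _ => NN_pos v) hY0, Real.log_prod (fun v _ => (NN_pos v).ne')]
      have e1 : N1K S a P.rep = ∑ v ∈ hfin.toFinset, Real.log (NN v) := by
        unfold N1K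
        rw [finsum_eq_sum_of_support_subset _ (s := hfin.toFinset) (by
          intro v hv
          rw [Function.mem_support] at hv
          rw [Set.Finite.coe_toFinset]
          by_contra hne
          exact hv (if_neg hne))]
        apply sum_congr rfl
        intro v hv
        rw [Set.Finite.mem_toFinset] at hv
        exact if_pos hv
      rw [← e1, hY, Real.log_mul hE0.ne' (by positivity), hE, Real.log_exp, Real.log_rpow hB0]
      have hlog : Real.log (mulHeight P.rep) ≤ Real.log B := Real.log_le_log (by positivity) g2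
      have := mul_le_mul_of_nonneg_left hlog hθ
      linarith [le_abs_self C]
    · exact ⟨∅, fun h => absurd h hP⟩
  choose g hgP using hchoice
  have hQcard : ((PP.image g).card : ℝ) ≤ C2 * Y := by
    apply h2 Y hY1
    intro Q hQ
    obtain ⟨P, hP, rfl⟩ := mem_image.1 hQ
    exact (hgP P hP).2
  -- base change of points
  set ι : ℙ K (Fin (n + 1) → K) → ℙ L (Fin (n + 1) → L) :=
    fun P => Projectivization.mk L (up L P.rep) (up_ne P.rep_nonzero) with hι
  have hιinj : Function.Injective ι := by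
    intro P P' h
    simp only [hι] at h
    rw [Projectivization.mk_eq_mk_iff'] at h
    obtain ⟨c, hc⟩ := h
    obtain ⟨j, hj⟩ := Function.ne_iff.1 P'.rep_nonzero
    have hj' : P'.rep j ≠ 0 := hj
    have hcj := congrFun hc j
    simp only [Pi.smul_apply, smul_eq_mul, up] at hcj
    have hcK : c = algebraMap K L (P.rep j / P'.rep j) := by
      rw [map_div₀, eq_div_iff (by simpa using hj')]
      exact hcj
    have hx : P.rep = (P.rep j / P'.rep j) • P'.rep := by
      funext k
      have hck := congrFun hc k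
      simp only [Pi.smul_apply, smul_eq_mul, up] at hck
      rw [hcK, ← map_mul] at hck
      exact ((algebraMap K L).injective hck).symm
    rw [← P.mk_rep, ← P'.mk_rep, Projectivization.mk_eq_mk_iff']
    exact ⟨_, hx.symm⟩
  set F : ℝ := (C1 * (B ^ m) ^ δ' * ((Y * WS) ^ m * W0) ^ δ') ^ (n + 1) with hF
  have hF0 : 0 ≤ F := by positivity
  have hfib : ∀ Q ∈ PP.image g, (PP.filter fun P => g P = Q).card ≤ ⌊F⌋₊ := by
    intro Q hQ
    apply Nat.le_floor
    obtain ⟨P0, hP0, rfl⟩ := mem_image.1 hQ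
    have h3 := h1 (B ^ m) (one_le_pow₀ hB) I hI (upF L (g P0 ∪ S) ∪ S0)
      ((PP.filter fun P => g P = g P0).image ι) (by
        intro P' hP'
        obtain ⟨P, hP, rfl⟩ := mem_image.1 hP'
        obtain ⟨hP1, hP2⟩ := mem_filter.1 hP
        obtain ⟨g1, g2, g3⟩ := hPP P hP1
        obtain ⟨c, hc⟩ := Projectivization.exists_smul_eq_mk_rep L (up L P.rep) (up_ne P.rep_nonzero)
        have hc' : (ι P).rep = (c : L) • up L P.rep := hc.symm
        have hc0 : (c : L) ≠ 0 := c.ne_zero
        rw [hc']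
        refine ⟨?_, ?_, ?_⟩
        · intro i
          rw [lin_smul]
          exact mul_ne_zero hc0 (g1 i)
        · rw [mulHeight_smul_eq_mulHeight _ hc0]
          have := Pool.Agent.Helper259.HtExt.mulHeight_ext (K := K) (L := L) P.rep
          unfold up
          rw [this]
          exact pow_le_pow_left₀ (by positivity) g2 _
        · intro w hw i hi
          rw [lin_smul, sv_smul, map_mul]
          congr 1
          simp only [mem_union, mem_upF, not_or, not_exists, not_and] at hw
          obtain ⟨hw1, hw2⟩ := hw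
          apply not_meets (hs1 w hw2 i)
          intro hmeet
          obtain ⟨v, hv⟩ := exists_below (K := K) w
          by_cases hvS : v ∈ S
          · exact hw1 v (Or.inr hvS) hv
          · refine hw1 v (Or.inl ?_) hv
            rw [← hP2, ((hgP P hP1).1 v)]
            exact ⟨hvS, w, hv, i, hmeet⟩)
    rw [card_image_of_injective _ hιinj] at h3
    refine h3.trans ?_
    rw [hF]
    have hprod : ∏ w ∈ upF L (g P0 ∪ S) ∪ S0, NN w ≤ (Y * WS) ^ m * W0 := by
      have k1 : ∀ A A' : Finset (FinitePlace L), ∏ w ∈ A ∪ A', NN w ≤ (∏ w ∈ A, NN w) * ∏ w ∈ A', NN w := by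
        intro A A'
        rw [← Finset.prod_union_inter]
        exact le_mul_of_one_le_right (prod_nonneg fun w _ => (NN_pos w).le)
          (Finset.one_le_prod fun w _ => by linarith [two_le_NN w])
      have k2 : ∀ A A' : Finset (FinitePlace K), ∏ w ∈ A ∪ A', NN w ≤ (∏ w ∈ A, NN w) * ∏ w ∈ A', NN w := by
        intro A A'
        rw [← Finset.prod_union_inter]
        exact le_mul_of_one_le_right (prod_nonneg fun w _ => (NN_pos w).le)
          (Finset.one_le_prod fun w _ => by linarith [two_le_NN w])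
      refine (k1 _ _).trans (mul_le_mul_of_nonneg_right ?_ hW00.le)
      refine (prod_upF _).trans (pow_le_pow_left₀ (prod_nonneg fun w _ => (NN_pos w).le) ?_ _)
      exact (k2 _ _).trans (mul_le_mul_of_nonneg_right (hgP P0 hP0).2 hWS0.le)
    have hprod0 : 0 ≤ ∏ w ∈ upF L (g P0 ∪ S) ∪ S0, NN w := prod_nonneg fun w _ => (NN_pos w).le
    apply pow_le_pow_left₀ (by positivity)
    apply mul_le_mul_of_nonneg_left _ (by positivity)
    exact Real.rpow_le_rpow hprod0 hprod hδ'0.le
  have htot := card_le_mul_card_image PP ⌊F⌋₊ hfib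
  calc (PP.card : ℝ) ≤ ((⌊F⌋₊ * (PP.image g).card : ℕ) : ℝ) := by exact_mod_cast htot
    _ = (⌊F⌋₊ : ℝ) * ((PP.image g).card : ℝ) := by push_cast; rfl
    _ ≤ F * (C2 * Y) := mul_le_mul (Nat.floor_le hF0) hQcard (Nat.cast_nonneg _) hF0
    _ = C2 * E * (C1 * ((E * WS) ^ m * W0) ^ δ') ^ (n + 1) * B ^ (θ + δ) := by
        have e1 : ((Y * WS) ^ m * W0) ^ δ' = ((E * WS) ^ m * W0) ^ δ' * B ^ (θ * m * δ') := by
          have : (Y * WS) ^ m * W0 = ((E * WS) ^ m * W0) * B ^ (θ * m) := by
            rw [hY, show E * B ^ θ * WS = (E * WS) * B ^ θ by ring, mul_pow, ← Real.rpow_natCast (B ^ θ) m,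
              ← Real.rpow_mul hB0.le]
            ring
          rw [this, Real.mul_rpow (by positivity) (by positivity), ← Real.rpow_mul hB0.le]
        have e0 : (B ^ m) ^ δ' = B ^ ((m : ℝ) * δ') := by
          rw [← Real.rpow_natCast B m, ← Real.rpow_mul hB0.le]
        have e2 : F = (C1 * ((E * WS) ^ m * W0) ^ δ') ^ (n + 1) *
            B ^ (δ' * (m * (1 + θ)) * ((n + 1 : ℕ) : ℝ)) := by
          rw [hF, e1, e0]
          have : C1 * B ^ ((m : ℝ) * δ') * (((E * WS) ^ m * W0) ^ δ' * B ^ (θ * m * δ')) =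
              C1 * ((E * WS) ^ m * W0) ^ δ' * B ^ (δ' * (m * (1 + θ))) := by
            rw [show δ' * (m * (1 + θ)) = (m : ℝ) * δ' + θ * m * δ' by ring, Real.rpow_add hB0]
            ring
          rw [this, mul_pow, ← Real.rpow_natCast (B ^ (δ' * (m * (1 + θ)))), ← Real.rpow_mul hB0.le]
        have e3 : δ' * (m * (1 + θ)) * ((n + 1 : ℕ) : ℝ) = δ := by
          rw [hδ']
          have : (1 + θ) ≠ 0 := by positivity
          field_simp
        rw [e2, e3, hY, Real.rpow_add hB0]
        ring

end Pool.Agent.H57R3.VJ
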