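import Mathlib
import Pool.Agent.H57R3.VJ.L

set_option autoImplicit false

open NumberField Height Finset IsDedekindDomain Filter LinearAlgebra.Projectivization
open scoped Classical

namespace Pool.Agent.H57R3.VJ

lemma major_zero (r n : ℕ) (hr : n + 1 ≤ r) (t : ℕ) :
    (r.choose (n + 1) : ℝ) - ((r - t).choose (n + 1) : ℝ) ≤ ((r - 1).choose n : ℝ) * t := by
  obtain ⟨m, rfl⟩ : ∃ m, r = m + 1 := ⟨r - 1, by omega⟩
  simp only [Nat.add_sub_cancel]
  induction t with
  | zero => simp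
  | succ t ih =>
    by_cases ht : t ≤ m
    · have e0 : m + 1 - t = (m - t) + 1 := by omega
      have e1 : m + 1 - (t + 1) = m - t := by omega
      have e2 : (m - t + 1).choose (n + 1) = (m - t).choose n + (m - t).choose (n + 1) := Nat.choose_succ_succ _ _
      have e3 : (m - t).choose n ≤ m.choose n := Nat.choose_le_choose _ (by omega)
      have e3' : ((m - t).choose n : ℝ) ≤ (m.choose n : ℝ) := by exact_mod_cast e3
      rw [e0, e2] at ih
      rw [e1]
      push_cast at ih ⊢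
      linarith
    · have e1 : m + 1 - (t + 1) = m + 1 - t := by omega
      rw [e1]
      push_cast
      have : (0 : ℝ) ≤ (m.choose n : ℝ) := Nat.cast_nonneg _
      linarith

/-- averaging with the sum over the components -/
lemma average2 {r n : ℕ} (hr : n + 1 ≤ r) {ι : Type*} (P : Finset ι) (L : ι → ℝ) (hL : ∀ v ∈ P, 0 ≤ L v)
    (T : ι → Finset (Fin r)) {A : ℝ} (hA : ∑ i : Fin r, ∑ v ∈ P.filter (fun v => i ∈ T v), L v ≤ A) :
    ∃ I : Finset (Fin r), I.card = n + 1 ∧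
      ∑ v ∈ P.filter (fun v => ¬ Disjoint I (T v)), L v ≤ ((n : ℝ) + 1) / r * A := by
  have hpos : (0 : ℝ) < (r.choose (n + 1) : ℝ) := by exact_mod_cast Nat.choose_pos hr
  have hne : (powersetCard (n + 1) (univ : Finset (Fin r))).Nonempty := by
    rw [powersetCard_nonempty, card_univ, Fintype.card_fin]; exact hr
  have key : ∑ I ∈ powersetCard (n + 1) (univ : Finset (Fin r)),
      ∑ v ∈ P.filter (fun v => ¬ Disjoint I (T v)), L v ≤ ((r - 1).choose n : ℝ) * A := by
    calc ∑ I ∈ powersetCard (n + 1) (univ : Finset (Fin r)), ∑ v ∈ P.filter (fun v => ¬ Disjoint I (T v)), L v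
        = ∑ I ∈ powersetCard (n + 1) (univ : Finset (Fin r)), ∑ v ∈ P, if ¬ Disjoint I (T v) then L v else 0 := by
          apply sum_congr rfl
          intro I _
          rw [sum_filter]
      _ = ∑ v ∈ P, ∑ I ∈ powersetCard (n + 1) (univ : Finset (Fin r)), if ¬ Disjoint I (T v) then L v else 0 :=
          sum_comm
      _ = ∑ v ∈ P, ((r.choose (n + 1) : ℝ) - ((r - (T v).card).choose (n + 1) : ℝ)) * L v := by
          apply sum_congr rfl
          intro v _
          rw [← sum_filter, sum_const, nsmul_eq_mul, count_meet]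
      _ ≤ ∑ v ∈ P, (((r - 1).choose n : ℝ) * (T v).card) * L v := by
          apply sum_le_sum
          intro v hv
          exact mul_le_mul_of_nonneg_right (major_zero r n hr _) (hL v hv)
      _ = ((r - 1).choose n : ℝ) * ∑ v ∈ P, ((T v).card : ℝ) * L v := by
          rw [mul_sum]
          apply sum_congr rfl
          intro v _
          ring
      _ = ((r - 1).choose n : ℝ) * ∑ i : Fin r, ∑ v ∈ P.filter (fun v => i ∈ T v), L v := by
          congr 1
          simp only [sum_filter]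
          rw [sum_comm]
          apply sum_congr rfl
          intro v _
          rw [← sum_filter, sum_const, nsmul_eq_mul]
          congr 2
          simp
      _ ≤ _ := mul_le_mul_of_nonneg_left hA (Nat.cast_nonneg _)
  have hid : ((r - 1).choose n : ℝ) / (r.choose (n + 1) : ℝ) = ((n : ℝ) + 1) / r := by
    obtain ⟨m, rfl⟩ : ∃ m, r = m + 1 := ⟨r - 1, by omega⟩
    simp only [Nat.add_sub_cancel]
    have h1 := Nat.add_one_mul_choose_eq m n
    have h2 : ((m : ℝ) + 1) * (m.choose n : ℝ) = ((m + 1).choose (n + 1) : ℝ) * ((n : ℝ) + 1) := by exact_mod_cast h1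
    rw [div_eq_div_iff hpos.ne' (by positivity)]
    push_cast
    linarith
  have hsum : ∑ I ∈ powersetCard (n + 1) (univ : Finset (Fin r)), ((n : ℝ) + 1) / r * A =
      ((r - 1).choose n : ℝ) * A := by
    rw [sum_const, card_powersetCard, card_univ, Fintype.card_fin, nsmul_eq_mul, ← hid]
    field_simp
  obtain ⟨I, hI, hle⟩ := exists_le_of_sum_le hne (key.trans (le_of_eq hsum.symm))
  exact ⟨I, (mem_powersetCard.1 hI).2, hle⟩

variable {K : Type*} [Field K] [NumberField K] {n r : ℕ}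

/-- first main theorem with multiplicities -/
lemma fmt_mult {b x : Fin (n + 1) → K} (hb : b ≠ 0) (hx : x ≠ 0) (hl : lin b x ≠ 0) (Q : Finset (FinitePlace K)) :
    ∏ v ∈ Q, (sv v b * sv v x * (v (lin b x))⁻¹) ≤
      ((n + 1 : ℕ) : ℝ) ^ (Module.finrank ℚ K) * mulHeight b * mulHeight x := by
  set f : FinitePlace K → ℝ := fun v => sv v b * sv v x * (v (lin b x))⁻¹ with hf
  have hvl : ∀ v : FinitePlace K, 0 < v (lin b x) := fun v => FinitePlace.pos_iff.2 hl
  have hf1 : ∀ v, 1 ≤ f v := by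
    intro v
    simp only [hf]
    rw [← div_eq_mul_inv, one_le_div (hvl v)]
    exact lin_le v b x
  have h12 : (fun v : FinitePlace K => sv v b * sv v x).HasFiniteMulSupport := (sv_fin hb).mul (sv_fin hx)
  have h3 : (fun v : FinitePlace K => (v (lin b x))⁻¹).HasFiniteMulSupport :=
    (FinitePlace.hasFiniteMulSupport hl).inv
  have hfin : f.HasFiniteMulSupport := h12.mul h3
  refine (prod_le_fp f hf1 hfin Q).trans ?_
  have e1 : ∏ᶠ v, f v = (∏ᶠ v : FinitePlace K, sv v b) * (∏ᶠ v : FinitePlace K, sv v x) *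
      (∏ᶠ v : FinitePlace K, v (lin b x))⁻¹ := by
    simp only [hf]
    rw [finprod_mul_distrib h12 h3, finprod_mul_distrib (sv_fin hb) (sv_fin hx), finprod_inv_distrib]
  have e2 : (∏ᶠ v : FinitePlace K, v (lin b x))⁻¹ = ∏ w : InfinitePlace K, w (lin b x) ^ w.mult := by
    have := NumberField.prod_abs_eq_one hl
    exact (eq_inv_of_mul_eq_one_left this).symm
  rw [e1, e2, NumberField.mulHeight_eq hb, NumberField.mulHeight_eq hx]
  have hb0 : 0 ≤ ∏ᶠ v : FinitePlace K, sv v b := finprod_nonneg fun v => sv_nonneg v b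
  have hx0 : 0 ≤ ∏ᶠ v : FinitePlace K, sv v x := finprod_nonneg fun v => sv_nonneg v x
  have e3 : ∏ w : InfinitePlace K, w (lin b x) ^ w.mult ≤
      ((n + 1 : ℕ) : ℝ) ^ (Module.finrank ℚ K) * (∏ w : InfinitePlace K, (⨆ i, w (b i)) ^ w.mult) *
        ∏ w : InfinitePlace K, (⨆ i, w (x i)) ^ w.mult := by
    rw [← InfinitePlace.sum_mult_eq, ← Finset.prod_pow_eq_pow_sum, ← Finset.prod_mul_distrib,
      ← Finset.prod_mul_distrib]
    apply Finset.prod_le_prod
    · intro w _; exact pow_nonneg (apply_nonneg _ _) _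
    intro w _
    rw [← mul_pow, ← mul_pow]
    apply pow_le_pow_left₀ (apply_nonneg _ _)
    unfold lin
    have hsum : w (∑ j, b j * x j) ≤ ∑ j, w (b j * x j) := by
      have := w.1.sum_le Finset.univ (fun j => b j * x j)
      exact this
    refine hsum.trans ?_
    calc ∑ j, w (b j * x j) ≤ ∑ j : Fin (n + 1), (⨆ i, w (b i)) * ⨆ i, w (x i) := by
          apply Finset.sum_le_sum
          intro j _
          rw [map_mul]
          have g1 : w (b j) ≤ ⨆ i, w (b i) := Finite.le_ciSup_of_le j le_rfl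
          have g2 : w (x j) ≤ ⨆ i, w (x i) := Finite.le_ciSup_of_le j le_rfl
          exact mul_le_mul g1 g2 (apply_nonneg _ _) (le_trans (apply_nonneg _ _) g1)
      _ = _ := by
          rw [Finset.sum_const, Finset.card_univ, Fintype.card_fin, nsmul_eq_mul, mul_assoc]
  calc (∏ᶠ v : FinitePlace K, sv v b) * (∏ᶠ v : FinitePlace K, sv v x) * ∏ w : InfinitePlace K, w (lin b x) ^ w.mult
      ≤ (∏ᶠ v : FinitePlace K, sv v b) * (∏ᶠ v : FinitePlace K, sv v x) *
        (((n + 1 : ℕ) : ℝ) ^ (Module.finrank ℚ K) * (∏ w : InfinitePlace K, (⨆ i, w (b i)) ^ w.mult) *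
        ∏ w : InfinitePlace K, (⨆ i, w (x i)) ^ w.mult) :=
        mul_le_mul_of_nonneg_left e3 (mul_nonneg hb0 hx0)
    _ = _ := by
        unfold sv
        ring

/-- abstract counting -/
theorem count_abs {a : Fin r → Fin (n + 1) → K} (ha : GenPos a) (hr : n + 1 ≤ r) (S0 : Finset (FinitePlace K))
    (κ c' : ℝ) (hκ0 : 0 ≤ κ) (hc'0 : 0 ≤ c') {δ : ℝ} (hδ : 0 < δ) :
    ∃ M : ℝ, ∀ B : ℝ, 1 ≤ B → ∀ PP : Finset (ℙ K (Fin (n + 1) → K)),
      (∀ P ∈ PP, (∀ i, lin (a i) P.rep ≠ 0) ∧ mulHeight P.rep ≤ B ∧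
        ∃ IQ : Finset (Fin r) × Finset (FinitePlace K), IQ.1.card = n + 1 ∧ Disjoint IQ.2 S0 ∧
          (∀ v ∉ IQ.2 ∪ S0, ∀ i ∈ IQ.1, v (lin (a i) P.rep) = sv v P.rep) ∧
          ∑ v ∈ IQ.2, Real.log (NN v) ≤ κ * Real.log B + c') →
      (PP.card : ℝ) ≤ M * B ^ (κ + δ) := by
  have hchpos : (0 : ℝ) < (r.choose (n + 1) : ℝ) := by exact_mod_cast Nat.choose_pos hr
  set ch : ℝ := (r.choose (n + 1) : ℝ) with hch
  set δ' : ℝ := δ / (((n + 1 : ℕ) : ℝ) * (1 + κ)) with hδ'
  have hn1 : (0 : ℝ) < ((n + 1 : ℕ) : ℝ) := by positivity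
  have hδ'0 : 0 < δ' := by positivity
  obtain ⟨C1, hC1, h1⟩ := fiber_card a ha hδ'0
  obtain ⟨C2, hC2, h2⟩ := sets_card K
  set W : ℝ := ∏ v ∈ S0, NN v with hW
  have hW0 : 0 < W := prod_pos fun v _ => NN_pos v
  set E : ℝ := Real.exp c' with hE
  have hE1 : 1 ≤ E := Real.one_le_exp hc'0
  have hE0 : 0 < E := by linarith
  refine ⟨(C1 * (E * W) ^ δ') ^ (n + 1) * (ch * (C2 * E)), fun B hB PP hPP => ?_⟩
  have hB0 : 0 < B := by linarith
  set Y : ℝ := E * B ^ κ with hY
  have hBκ1 : 1 ≤ B ^ κ := Real.one_le_rpow hB hκ0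
  have hY1 : 1 ≤ Y := by
    calc (1:ℝ) = 1 * 1 := (one_mul 1).symm
      _ ≤ E * B ^ κ := mul_le_mul hE1 hBκ1 zero_le_one hE0.le
  have hY0 : 0 < Y := by linarith
  have hchoice : ∀ P : ℙ K (Fin (n + 1) → K), ∃ IQ : Finset (Fin r) × Finset (FinitePlace K),
      P ∈ PP → IQ.1.card = n + 1 ∧ Disjoint IQ.2 S0 ∧
      (∀ v ∉ IQ.2 ∪ S0, ∀ i ∈ IQ.1, v (lin (a i) P.rep) = sv v P.rep) ∧ ∏ v ∈ IQ.2, NN v ≤ Y := by
    intro P
    by_cases hP : P ∈ PP
    · obtain ⟨g1, g2, IQ, k1, k2, k3, k4⟩ := hPP P hP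
      refine ⟨IQ, fun _ => ⟨k1, k2, k3, ?_⟩⟩
      rw [← Real.log_le_log_iff (prod_pos fun v _ => NN_pos v) hY0, Real.log_prod (fun v _ => (NN_pos v).ne')]
      refine k4.trans (le_of_eq ?_)
      rw [hY, Real.log_mul hE0.ne' (by positivity), hE, Real.log_exp, Real.log_rpow hB0]
      ring
    · exact ⟨default, fun h => absurd h hP⟩
  choose g hgP using hchoice
  set QQ : Finset (Finset (FinitePlace K)) := PP.image fun P => (g P).2 with hQQ
  have hQcard : (QQ.card : ℝ) ≤ C2 * Y := by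
    apply h2 Y hY1
    intro Q hQ
    obtain ⟨P, hP, rfl⟩ := mem_image.1 hQ
    exact (hgP P hP).2.2.2
  have himg : ((PP.image g).card : ℝ) ≤ ch * (C2 * Y) := by
    have hsub : PP.image g ⊆ (powersetCard (n + 1) (univ : Finset (Fin r))) ×ˢ QQ := by
      intro IQ hIQ
      obtain ⟨P, hP, rfl⟩ := mem_image.1 hIQ
      rw [mem_product]
      exact ⟨mem_powersetCard.2 ⟨subset_univ _, (hgP P hP).1⟩, mem_image_of_mem _ hP⟩
    have h3 := card_le_card hsub
    rw [card_product, card_powersetCard, card_univ, Fintype.card_fin] at h3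
    calc ((PP.image g).card : ℝ) ≤ ((r.choose (n + 1) * QQ.card : ℕ) : ℝ) := by exact_mod_cast h3
      _ = ch * QQ.card := by push_cast; rfl
      _ ≤ _ := mul_le_mul_of_nonneg_left hQcard hchpos.le
  set F : ℝ := (C1 * B ^ δ' * (Y * W) ^ δ') ^ (n + 1) with hF
  have hF0 : 0 ≤ F := by positivity
  have hfib : ∀ IQ ∈ PP.image g, (PP.filter fun P => g P = IQ).card ≤ ⌊F⌋₊ := by
    intro IQ hIQ
    apply Nat.le_floor
    obtain ⟨P0, hP0, rfl⟩ := mem_image.1 hIQ
    have h3 := h1 B hB (g P0).1 (hgP P0 hP0).1 ((g P0).2 ∪ S0) (PP.filter fun P => g P = g P0) (by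
      intro P hP
      obtain ⟨hP1, hP2⟩ := mem_filter.1 hP
      obtain ⟨g1, g2, g3⟩ := hPP P hP1
      refine ⟨g1, g2, ?_⟩
      rw [← hP2]
      exact (hgP P hP1).2.2.1)
    refine h3.trans ?_
    rw [hF, prod_union (hgP P0 hP0).2.1]
    apply pow_le_pow_left₀
    · have : 0 ≤ (∏ v ∈ (g P0).2, NN v) * ∏ v ∈ S0, NN v :=
        mul_nonneg (prod_nonneg fun v _ => (NN_pos v).le) (prod_nonneg fun v _ => (NN_pos v).le)
      positivity
    · apply mul_le_mul_of_nonneg_left _ (by positivity)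
      apply Real.rpow_le_rpow
      · exact mul_nonneg (prod_nonneg fun v _ => (NN_pos v).le) (prod_nonneg fun v _ => (NN_pos v).le)
      · exact mul_le_mul_of_nonneg_right (hgP P0 hP0).2.2.2 hW0.le
      · exact hδ'0.le
  have htot := card_le_mul_card_image PP ⌊F⌋₊ hfib
  calc (PP.card : ℝ) ≤ ((⌊F⌋₊ * (PP.image g).card : ℕ) : ℝ) := by exact_mod_cast htot
    _ = (⌊F⌋₊ : ℝ) * ((PP.image g).card : ℝ) := by push_cast; rfl
    _ ≤ F * (ch * (C2 * Y)) := mul_le_mul (Nat.floor_le hF0) himg (Nat.cast_nonneg _) hF0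
    _ = (C1 * (E * W) ^ δ') ^ (n + 1) * (ch * (C2 * E)) * B ^ (κ + δ) := by
        have e1 : (Y * W) ^ δ' = (E * W) ^ δ' * B ^ (κ * δ') := by
          rw [hY, show E * B ^ κ * W = (E * W) * B ^ κ by ring, Real.mul_rpow (by positivity) (by positivity),
            ← Real.rpow_mul hB0.le]
        have e2 : F = (C1 * (E * W) ^ δ') ^ (n + 1) * B ^ (δ' * (1 + κ) * ((n + 1 : ℕ) : ℝ)) := by
          rw [hF, e1]
          have : C1 * B ^ δ' * ((E * W) ^ δ' * B ^ (κ * δ')) = C1 * (E * W) ^ δ' * B ^ (δ' * (1 + κ)) := by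
            rw [show δ' * (1 + κ) = δ' + κ * δ' by ring, Real.rpow_add hB0]
            ring
          rw [this, mul_pow, ← Real.rpow_natCast (B ^ (δ' * (1 + κ))), ← Real.rpow_mul hB0.le]
        have e3 : δ' * (1 + κ) * ((n + 1 : ℕ) : ℝ) = δ := by
          rw [hδ']
          have : (1 + κ) ≠ 0 := by positivity
          field_simp
        rw [e2, e3, hY, Real.rpow_add hB0]
        ring

end Pool.Agent.H57R3.VJ
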