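import Mathlib
import Pool.Agent.H57R3.VJ.N

set_option autoImplicit false

open NumberField Height Finset IsDedekindDomain Filter LinearAlgebra.Projectivization
open scoped Classical

namespace Pool.Agent.H57R3.VJ

variable {K : Type*} [Field K] [NumberField K] {n r : ℕ}

/-- integrality (outside `S`) with respect to the multiplicities `m i ∈ ℕ ∪ {∞}` along the hyperplanes `a i`:
at each finite place `v ∉ S` the intersection number `k` of the point with the hyperplane is `0` or at least `m i` -/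
def CInt (S : Finset (FinitePlace K)) (a : Fin r → Fin (n + 1) → K) (m : Fin r → ℕ∞) (x : Fin (n + 1) → K) : Prop :=
  ∀ v ∉ S, ∀ i, Meets (a i) x v → ∃ k : ℕ, m i ≤ (k : ℕ∞) ∧ sv v (a i) * sv v x = NN v ^ k * v (lin (a i) x)

/-- `1 / m`, with `1 / ∞ = 0` -/
noncomputable def wt (m : ℕ∞) : ℝ := if m = ⊤ then 0 else 1 / (m.toNat : ℝ)

lemma wt_nonneg (m : ℕ∞) : 0 ≤ wt m := by
  unfold wt
  split_ifs
  · exact le_rfl
  · positivity

lemma cint_sum {S : Finset (FinitePlace K)} {a : Fin r → Fin (n + 1) → K} {m : Fin r → ℕ∞} {x : Fin (n + 1) → K}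
    (hC : CInt S a m x) (hm : ∀ i, 1 ≤ m i) (ha0 : ∀ i, a i ≠ 0) (hx : x ≠ 0) (hl : ∀ i, lin (a i) x ≠ 0)
    {c h : ℝ} (hc : ∀ i, Real.log (((n + 1 : ℕ) : ℝ) ^ (Module.finrank ℚ K) * mulHeight (a i)) ≤ c)
    (hh : Real.log (mulHeight x) ≤ h) (i : Fin r) (Q : Finset (FinitePlace K)) (hQ : ∀ v ∈ Q, v ∉ S ∧ Meets (a i) x v) :
    ∑ v ∈ Q, Real.log (NN v) ≤ wt (m i) * (c + h) := by
  unfold wt
  split_ifs with htop
  · have hQe : Q = ∅ := by
      rw [Finset.eq_empty_iff_forall_notMem]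
      intro v hv
      obtain ⟨k, hk, _⟩ := hC v (hQ v hv).1 i (hQ v hv).2
      rw [htop, top_le_iff] at hk
      exact ENat.coe_ne_top k hk
    rw [hQe]
    simp
  · have hM1 : 1 ≤ (m i).toNat := by
      have h1 := hm i
      have h2 : ((m i).toNat : ℕ∞) = m i := ENat.coe_toNat htop
      rw [← h2] at h1
      exact_mod_cast h1
    set M : ℕ := (m i).toNat with hM
    have hM0 : (0 : ℝ) < M := by exact_mod_cast hM1
    have hvl : ∀ v : FinitePlace K, 0 < v (lin (a i) x) := fun v => FinitePlace.pos_iff.2 (hl i)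
    have h1 : ∀ v ∈ Q, (M : ℝ) * Real.log (NN v) ≤ Real.log (sv v (a i) * sv v x * (v (lin (a i) x))⁻¹) := by
      intro v hv
      obtain ⟨k, hk, hk2⟩ := hC v (hQ v hv).1 i (hQ v hv).2
      have e1 : sv v (a i) * sv v x * (v (lin (a i) x))⁻¹ = NN v ^ k := by
        rw [hk2, mul_assoc, mul_inv_cancel₀ (hvl v).ne', mul_one]
      rw [e1, Real.log_pow]
      have hMk : M ≤ k := by
        have h2 : ((m i).toNat : ℕ∞) = m i := ENat.coe_toNat htop
        rw [← h2] at hk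
        exact_mod_cast hk
      apply mul_le_mul_of_nonneg_right
      · exact_mod_cast hMk
      · exact Real.log_nonneg (by linarith [two_le_NN v])
    have h2 := fmt_mult (ha0 i) hx (hl i) Q
    have hpos : ∀ v ∈ Q, 0 < sv v (a i) * sv v x * (v (lin (a i) x))⁻¹ := fun v _ =>
      mul_pos (mul_pos (sv_pos v (ha0 i)) (sv_pos v hx)) (inv_pos.2 (hvl v))
    have h3 : ∑ v ∈ Q, Real.log (sv v (a i) * sv v x * (v (lin (a i) x))⁻¹) ≤ c + h := by
      rw [← Real.log_prod (fun v hv => (hpos v hv).ne')]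
      have hm1 : 0 < mulHeight x := by positivity
      have hm0 : 0 < mulHeight (a i) := by positivity
      have hn1 : (0:ℝ) < ((n + 1 : ℕ) : ℝ) := by positivity
      calc Real.log _ ≤ Real.log (((n + 1 : ℕ) : ℝ) ^ (Module.finrank ℚ K) * mulHeight (a i) * mulHeight x) :=
            Real.log_le_log (prod_pos hpos) h2
        _ = Real.log (((n + 1 : ℕ) : ℝ) ^ (Module.finrank ℚ K) * mulHeight (a i)) + Real.log (mulHeight x) :=
            Real.log_mul (by positivity) hm1.ne'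
        _ ≤ c + h := add_le_add (hc i) hh
    have h4 : (M : ℝ) * ∑ v ∈ Q, Real.log (NN v) ≤ c + h := by
      rw [mul_sum]
      exact (sum_le_sum h1).trans h3
    rw [one_div, inv_mul_eq_div, le_div_iff₀ hM0]
    linarith

lemma sum_biUnion_le_sum {ι κ : Type*} {I : Finset ι} {t : ι → Finset κ} {f : κ → ℝ} (hf : ∀ x, 0 ≤ f x) :
    ∑ x ∈ I.biUnion t, f x ≤ ∑ i ∈ I, ∑ x ∈ t i, f x := by
  induction I using Finset.induction_on with
  | empty => simp
  | insert i I hi ih =>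
    rw [biUnion_insert, sum_insert hi]
    have h1 := sum_union_inter (s₁ := t i) (s₂ := I.biUnion t) (f := f)
    have h2 : 0 ≤ ∑ x ∈ t i ∩ I.biUnion t, f x := sum_nonneg fun x _ => hf x
    linarith

theorem camp_count {a : Fin r → Fin (n + 1) → K} (ha : GenPos a) (hr : n + 1 ≤ r) (S : Finset (FinitePlace K))
    (κ : ℝ) (hκ0 : 0 ≤ κ) {δ : ℝ} (hδ : 0 < δ) :
    ∃ M : ℝ, ∀ B : ℝ, 1 ≤ B → ∀ PP : Finset (ℙ K (Fin (n + 1) → K)),
      (∀ P ∈ PP, (∀ i, lin (a i) P.rep ≠ 0) ∧ mulHeight P.rep ≤ B ∧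
        ∃ m : Fin r → ℕ∞, (∀ i, 1 ≤ m i) ∧ (∃ I : Finset (Fin r), I.card = n + 1 ∧ ∑ i ∈ I, wt (m i) ≤ κ) ∧
          CInt S a m P.rep) →
      (PP.card : ℝ) ≤ M * B ^ (κ + δ) := by
  have ha0 := fun i => ha.ne_zero hr i
  obtain ⟨S0, hS, hs1, _⟩ := bad_exists ha ha0 S
  set c : ℝ := ∑ i, |Real.log (((n + 1 : ℕ) : ℝ) ^ (Module.finrank ℚ K) * mulHeight (a i))| with hcdef
  have hc0 : 0 ≤ c := sum_nonneg fun i _ => abs_nonneg _
  have hc : ∀ i, Real.log (((n + 1 : ℕ) : ℝ) ^ (Module.finrank ℚ K) * mulHeight (a i)) ≤ c := fun i =>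
    (le_abs_self _).trans (single_le_sum
      (f := fun i => |Real.log (((n + 1 : ℕ) : ℝ) ^ (Module.finrank ℚ K) * mulHeight (a i))|)
      (fun j _ => abs_nonneg _) (mem_univ i))
  obtain ⟨M, hM⟩ := count_abs ha hr S0 κ (κ * c) hκ0 (by positivity) hδ
  refine ⟨M, fun B hB PP hPP => hM B hB PP fun P hP => ?_⟩
  obtain ⟨g1, g2, m, hm1, ⟨I, hI, hmI⟩, hC⟩ := hPP P hP
  refine ⟨g1, g2, ?_⟩
  have hB0 : 0 < B := by linarith
  have hx := P.rep_nonzero
  have hlog : Real.log (mulHeight P.rep) ≤ Real.log B := Real.log_le_log (by positivity) g2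
  have hlogB : 0 ≤ Real.log B := Real.log_nonneg hB
  have hfin : (⋃ i, {v : FinitePlace K | Meets (a i) P.rep v}).Finite :=
    Set.finite_iUnion fun i => meets_fin (ha0 i) hx (g1 i)
  have hL : ∀ v : FinitePlace K, 0 ≤ Real.log (NN v) := fun v => Real.log_nonneg (by linarith [two_le_NN v])
  set Q : Finset (FinitePlace K) := I.biUnion fun i => (hfin.toFinset \ S0).filter fun v => Meets (a i) P.rep v with hQ
  refine ⟨(I, Q), hI, ?_, ?_, ?_⟩
  · rw [Finset.disjoint_left]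
    intro v hv
    obtain ⟨i, _, hv⟩ := mem_biUnion.1 hv
    rw [mem_filter, Finset.mem_sdiff] at hv
    exact hv.1.2
  · intro v hv i hi
    simp only [mem_union, not_or] at hv
    obtain ⟨hv1, hv2⟩ := hv
    apply not_meets (hs1 v hv2 i)
    intro hmeet
    apply hv1
    rw [hQ, mem_biUnion]
    refine ⟨i, hi, ?_⟩
    rw [mem_filter, Finset.mem_sdiff]
    refine ⟨⟨?_, hv2⟩, hmeet⟩
    rw [Set.Finite.mem_toFinset, Set.mem_iUnion]
    exact ⟨i, hmeet⟩
  · calc ∑ v ∈ Q, Real.log (NN v)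
        ≤ ∑ i ∈ I, ∑ v ∈ (hfin.toFinset \ S0).filter (fun v => Meets (a i) P.rep v), Real.log (NN v) :=
          sum_biUnion_le_sum hL
      _ ≤ ∑ i ∈ I, wt (m i) * (c + Real.log B) := by
          apply sum_le_sum
          intro i _
          apply cint_sum hC hm1 ha0 hx g1 hc hlog i
          intro v hv
          rw [mem_filter, Finset.mem_sdiff] at hv
          obtain ⟨⟨_, h2⟩, h3⟩ := hv
          exact ⟨fun h => h2 (hS h), h3⟩
      _ = (∑ i ∈ I, wt (m i)) * (c + Real.log B) := by rw [sum_mul]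
      _ ≤ κ * (c + Real.log B) := mul_le_mul_of_nonneg_right hmI (by linarith)
      _ = κ * Real.log B + κ * c := by ring

lemma avg_wt (hr : n + 1 ≤ r) (m : Fin r → ℕ∞) {θ : ℝ} (h : ∑ i, wt (m i) ≤ θ) :
    ∃ I : Finset (Fin r), I.card = n + 1 ∧ ∑ i ∈ I, wt (m i) ≤ ((n : ℝ) + 1) / r * θ := by
  obtain ⟨I, hI, hle⟩ := average2 hr (univ : Finset (Fin r)) (fun i => wt (m i)) (fun i _ => wt_nonneg _)
    (fun i => {i}) (A := θ) (by
      refine le_trans (le_of_eq ?_) h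
      apply sum_congr rfl
      intro i _
      rw [sum_filter]
      simp)
  refine ⟨I, hI, le_trans (le_of_eq ?_) hle⟩
  apply sum_congr _ (fun _ _ => rfl)
  ext i
  simp

end Pool.Agent.H57R3.VJ
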